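import Pool.Agent.Q56.FR.Defs
import Pool.Agent.W552.Defs
import Pool.Agent.H281R3.HT.GDefs
import Pool.Agent.H914R2.HodgeDefs

/-!
# The strong Tate conjecture and the standard conjecture of Hodge type for products
-/

set_option autoImplicit false

open CategoryTheory AlgebraicGeometry

universe u v

namespace Pool.Agent.Q56.FH

open Pool.Agent.H914 Pool.Agent.H914.VarClass Pool.Agent.H914.VarClass.Obj
  Pool.Agent.H281R3.HT Pool.Agent.W552 Pool.Agent.Q56.FE

variable {k : Type u} [Field k] {𝒱 : VarClass k} {ops : CycleOps 𝒱}

/-- The strong Tate conjecture for `X` in all codimensions, over the field with `q` elements, and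
the standard conjecture of Hodge type for `X` with its divisor. -/
def TateHodge {W : WeilCohomology.{u, v} ops} {q : ℕ} (F : FrobeniusOver W q) (X : Polarized 𝒱) :
    Prop :=
  StrongTateAll F X.X ∧ HodgeType W X.X X.D

/-- The power `P^(n+1)`, with the sum of the pull-backs of the divisor. -/
noncomputable def power (ops : CycleOps 𝒱) (P : Polarized 𝒱) (n : ℕ) : Polarized 𝒱 :=
  nest ops n fun _ => P

end Pool.Agent.Q56.FH
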