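import Pool.Agent.Q56.FH.Main
import Pool.Agent.Q56.FH.Defs
import Pool.Agent.Q56.FR.Class
import Pool.Agent.W552.TautFr

/-!
# Boundedly many factors decide the strong Tate conjecture and the conjecture of Hodge type
-/

set_option autoImplicit false
set_option linter.unusedSectionVars false

open CategoryTheory AlgebraicGeometry

universe u v w

namespace Pool.Agent.Q56.FH

open Pool.Agent.H914 Pool.Agent.H447 Pool.Agent.H914.VarClass Pool.Agent.H914.VarClass.Obj
  Pool.Agent.H914.WeilCohomology Pool.Agent.H281R3.HT Pool.Agent.W552 Pool.Agent.W534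
  Pool.Agent.W458.MF Pool.Agent.W536.RR Pool.Agent.Y133.Half
  Pool.Agent.Q56.FD Pool.Agent.Q56.FE Pool.Agent.Q56.FR

variable {k : Type u} [Field k] {𝒱 : VarClass k} {ops : CycleOps 𝒱}
  {W : WeilCohomology.{u, v} ops} {p : ℕ} [Fact p.Prime] {a : ℕ}
  {F : FrobeniusOver W (p ^ a)} {Q : ℕ → Polynomial ℤ} {M : ℕ} {τ : Qb →+* W.K}

lemma hasPart_of_long (ha : 0 < a) (hQ : ∀ i ≤ M, IsFrobPoly p (p ^ a) i (Q i)) {b d : ℕ}
    (hb : ∑ i ∈ Finset.range (M + 1), (Q i).natDegree ≤ b) (hM : M ≤ 2 * d) {n : ℕ}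
    (hn : exactBound b d ≤ n) (lab : Fin (n + 1) → Letter Q M)
    (h : ExOn (p ^ a) lab Finset.univ) : HasPart (p ^ a) lab := by
  classical
  obtain ⟨s, hle, hne, hcard, hex⟩ := exists_exact_block lab ha hQ hb hM
    (Finset.univ : Finset (Fin (n + 1))).val (by
      intro h0
      have := congrArg Multiset.card h0
      simp at this) h
  have hnd : s.Nodup := Multiset.nodup_of_le hle (Finset.univ : Finset (Fin (n + 1))).nodup
  refine ⟨⟨s, hnd⟩, ?_, ?_, hex⟩
  · rw [← Finset.card_pos]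
    exact Multiset.card_pos.2 hne
  · rw [← Finset.card_pos, Finset.card_compl, Fintype.card_fin]
    have h1 : (⟨s, hnd⟩ : Finset (Fin (n + 1))).card = Multiset.card s := rfl
    rw [h1]
    omega

lemma two_le_exactBound (b d : ℕ) : 2 ≤ exactBound b d := by
  have h1 : 1 ≤ b.factorial := b.factorial_pos
  have h2 : 2 ≤ torsBound b := by
    rw [torsBound]
    exact (show 2 ≤ 2 * b.factorial by omega).trans (Nat.self_le_factorial _)
  have h3 : 1 ≤ powBound b d := by
    rw [powBound]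
    refine Nat.one_le_pow _ _ ?_
    exact Nat.mul_pos (by omega) b.factorial_pos
  calc 2 = 2 * 1 := rfl
    _ ≤ _ := Nat.mul_le_mul h2 h3

section Family

variable {ι : Type w} {P : ι → Polarized 𝒱} {b d : ℕ}

/-- The factors. -/
lemma factors (hD : ∀ i, (P i).X.IsCyc 1 (P i).D) (hHL : ∀ i, HardLefschetz W (P i).X (P i).D)
    (hT : ∀ i, StrongTateAll F ((P i).X.prod (P i).X)) :
    ∃ f : ∀ i, Module.End W.K (W.H (P i).X), (∀ i, Fr W (P i).X (P i).D (f i)) ∧
      (∀ i, LefStr (W.isInternal (P i).X) (P i).X.dim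
        (LinearMap.mulLeft W.K (W.cl (P i).X (P i).D)) (f i)) := by
  have hq : p ^ a ≠ 0 := (pow_pos (Fact.out : p.Prime).pos a).ne'
  choose f hf hl using fun i => exists_fr (hD i) (hHL i)
    (lefschetzB_of_strong F hq (hD i) (hHL i) (hT i))
  exact ⟨f, hf, hl⟩

/-- **The main theorem for families.** -/
theorem family_main (ha : 0 < a) (hQ : ∀ i ≤ M, IsFrobPoly p (p ^ a) i (Q i))
    (hb : ∑ i ∈ Finset.range (M + 1), (Q i).natDegree ≤ b) (hM : M ≤ 2 * d)
    (hD : ∀ i, (P i).X.IsCyc 1 (P i).D) (hHL : ∀ i, HardLefschetz W (P i).X (P i).D)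
    (hP : ∀ i, LettersSpan F Q M τ (P i).X)
    (h : ∀ n < exactBound b d, ∀ c : Fin (n + 1) → ι,
      TateHodge F (nest ops n fun i => P (c i))) (n : ℕ) (c : Fin (n + 1) → ι) :
    TateHodge F (nest ops n fun i => P (c i)) ∧
      HomEqNum W (nest ops n fun i => P (c i)).X := by
  have hT : ∀ i, StrongTateAll F ((P i).X.prod (P i).X) := fun i =>
    (h 1 (two_le_exactBound b d) fun _ => i).1
  obtain ⟨f, hf, hl⟩ := factors hD hHL hT
  have hS : ∀ i, Sy W (P i).X (P i).D (f i) := fun i => bf_sy (hf i) (hl i)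
  have hE : ∀ i, EigSpan F Q M τ (P i).X := fun i => eigSpan_of (hP i) (hT i)
  have key : ∀ (n : ℕ) (c : Fin (n + 1) → ι), Ind F ha (fun i => P (c i)) fun i => f (c i) := by
    intro n
    induction n using Nat.strong_induction_on with
    | _ n ih =>
      intro c
      rcases Nat.lt_or_ge n (exactBound b d) with hn | hn
      · obtain ⟨h1, h2⟩ := h n hn c
        refine ⟨(strong_iff1 (ha := ha) _).1 h1, fun g G _ _ x hx hx0 => ?_⟩
        exact G.bf_pos h2 hx hx0
      · exact ind_step ha hQ (fun i => hE (c i)) (fun i => hf (c i)) (fun i => hS (c i))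
          (fun i => hl (c i)) (fun lab hlab => hasPart_of_long ha hQ hb hM hn lab hlab)
          fun m e hm => ih m hm fun i => c (e i)
  obtain ⟨h1, h2⟩ := key n c
  obtain ⟨g, G, GS, hg⟩ := exists_form (W := W) (fun i => P (c i)) (fun i => f (c i))
    (fun i => hf (c i)) fun i => hS (c i)
  have hpos := h2 g G GS hg
  refine ⟨⟨(strong_iff1 (ha := ha) _).2 h1, fun j hj z hz hprim hz0 => ?_⟩,
    fun j hj z hz hnum => ?_⟩
  · exact (G.hodge hz fun h0 => hpos _ (AS.of ⟨z, hz, rfl⟩) h0).1 hj hprim hz0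
  · exact (G.hodge hz fun h0 => hpos _ (AS.of ⟨z, hz, rfl⟩) h0).2 hj hnum

end Family

section Power

variable {P : Polarized 𝒱} {b d : ℕ}

lemma power_succ (n : ℕ) : power ops P (n + 1) = P.prod ops (power ops P n) := rfl

lemma tate_down {n : ℕ} (h : StrongTateAll F (power ops P (n + 1)).X) :
    StrongTateAll F (power ops P n).X := by
  intro j x hx
  let Y : 𝒱.Obj := (power ops P n).X
  let g : Y ⟶ P.X := prj ops n (fun _ => P) 0
  let s : Y ⟶ P.X.prod Y := lift g (𝟙 Y)
  have h1 : W.map (snd P.X Y) x ∈ (fr F (P.X.prod Y)).maxGenEigenspace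
      (((p ^ a : ℕ) : W.K) ^ j) ⊓ W.gr (P.X.prod Y) (2 * j) :=
    ⟨gen_pull (snd P.X Y) hx.1, W.map_mem _ hx.2⟩
  have h2 := h j h1
  have h3 : ∀ y ∈ spanCycles W (P.X.prod Y) j, W.map s y ∈ spanCycles W Y j := by
    intro y hy
    induction hy using Submodule.span_induction with
    | mem y hy =>
      obtain ⟨r, hr, z, hz, rfl⟩ := hy
      exact Submodule.subset_span ⟨r, hr, ops.pull s z, ops.pull_mem s hz, W.cl_pull s z⟩
    | zero => rw [map_zero]; exact Submodule.zero_mem _
    | add x y _ _ hx hy => rw [map_add]; exact Submodule.add_mem _ hx hy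
    | smul c x _ hx => rw [map_smul]; exact Submodule.smul_mem _ _ hx
  have h4 := h3 _ h2
  rw [← W.map_comp, lift_snd, W.map_id] at h4
  exact h4

lemma tate_le {n : ℕ} (h : StrongTateAll F (power ops P n).X) :
    ∀ m ≤ n, StrongTateAll F (power ops P m).X := by
  induction n with
  | zero =>
    intro m hm
    obtain rfl : m = 0 := by omega
    exact h
  | succ n ih =>
    intro m hm
    rcases Nat.lt_or_ge m (n + 1) with hlt | hge
    · exact ih (tate_down h) m (by omega)
    · obtain rfl : m = n + 1 := by omega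
      exact h

lemma hodge_down (hdeg : 0 < P.X.V.degCycle (divPow ops P.D P.X.dim P.X.V.fundCycle))
    {f : Module.End W.K (W.H P.X)} (hf : Fr W P.X P.D f) (hS : Sy W P.X P.D f) {n : ℕ}
    (h : HodgeType W (power ops P (n + 1)).X (power ops P (n + 1)).D) :
    HodgeType W (power ops P n).X (power ops P n).D := by
  obtain ⟨g, G, GS, hg⟩ := exists_form (W := W) (n := n) (fun _ => P) (fun _ => f)
    (fun _ => hf) fun _ => hS
  have G' := hf.prod G
  have hn := divPow_mem (ops := ops) hf.hD P.X.dim P.X.V.fundCycle_mem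
  rw [zero_add] at hn
  have htr : ∃ b : W.H P.X, W.tr P.X b ≠ 0 := by
    refine ⟨W.cl P.X (divPow ops P.D P.X.dim P.X.V.fundCycle), ?_⟩
    rw [W.tr_cl hn]
    exact_mod_cast hdeg.ne'
  have h1 := hf.bf_one
  set r : ℚ := (P.X.dim.factorial : ℚ)⁻¹ *
    P.X.V.degCycle (divPow ops P.D P.X.dim P.X.V.fundCycle) with hr
  have hr0 : 0 < r := mul_pos (inv_pos.2 (by exact_mod_cast Nat.factorial_pos _)) hdeg
  have hrK : (r : W.K) ≠ 0 := by exact_mod_cast hr0.ne'
  have hpos : PosOn W (power ops P n).X (power ops P n).D g := by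
    intro x hx hx0
    have hz : AS W _ (H281R3.HT.ext W (1 : W.H P.X) x) := AS.one.ext hx
    have hz0 : H281R3.HT.ext W (1 : W.H P.X) x ≠ 0 := by
      intro h0
      apply hx0
      apply W.nondeg
      intro c
      obtain ⟨b, hb⟩ := htr
      have h2 := W.tr_prod (X := P.X) (Y := (power ops P n).X) b (x * c)
      rw [H281R3.HT.ext, map_one, one_mul] at h0
      rw [map_mul (W.map (snd P.X (power ops P n).X)), h0, zero_mul, mul_zero, map_zero] at h2
      rcases mul_eq_zero.1 h2.symm with h3 | h3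
      · exact absurd h3 hb
      · exact h3
    obtain ⟨s, hs, hs'⟩ := G'.bf_pos h hz hz0
    have h3 := hf.bf_ext G 1 1 x x
    rw [h1] at h3
    have h4 := hs'.symm.trans h3
    refine ⟨s / r, div_pos hs hr0, ?_⟩
    rw [Rat.cast_div, eq_div_iff hrK, mul_comm]
    exact h4.symm
  intro j hj z hz hprim hz0
  exact (G.hodge hz fun h0 => hpos _ (AS.of ⟨z, hz, rfl⟩) h0).1 hj hprim hz0

lemma hodge_le (hdeg : 0 < P.X.V.degCycle (divPow ops P.D P.X.dim P.X.V.fundCycle))
    {f : Module.End W.K (W.H P.X)} (hf : Fr W P.X P.D f) (hS : Sy W P.X P.D f) {n : ℕ}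
    (h : HodgeType W (power ops P n).X (power ops P n).D) :
    ∀ m ≤ n, HodgeType W (power ops P m).X (power ops P m).D := by
  induction n with
  | zero =>
    intro m hm
    obtain rfl : m = 0 := by omega
    exact h
  | succ n ih =>
    intro m hm
    rcases Nat.lt_or_ge m (n + 1) with hlt | hge
    · exact ih (hodge_down hdeg hf hS h) m (by omega)
    · obtain rfl : m = n + 1 := by omega
      exact h

/-- **One explicit power decides both conjectures.** -/
theorem power_main [IsAlgClosed W.K] (ha : 0 < a) (hD : P.X.IsCyc 1 P.D)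
    (hdeg : 0 < P.X.V.degCycle (divPow ops P.D P.X.dim P.X.V.fundCycle))
    (hHL : HardLefschetz W P.X P.D) (hP : HasFrobPolys F P.X)
    (hb : Module.finrank W.K (W.H P.X) ≤ b) (hd : P.X.dim ≤ d)
    (h : TateHodge F (power ops P (exactBound b d - 1))) (n : ℕ) :
    TateHodge F (power ops P n) ∧ HomEqNum W (power ops P n).X := by
  obtain ⟨Q, hQ, hQc, hQs⟩ := HasFrobPolys.exists_polys ha hP
  let τ : Qb →+* W.K := (IsAlgClosed.lift : Qb →ₐ[ℚ] W.K).toRingHom
  have hN := two_le_exactBound b d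
  have hT : StrongTateAll F (P.X.prod P.X) := tate_le h.1 1 (by omega)
  obtain ⟨f, hf, hl⟩ := factors (ι := Unit) (P := fun _ => P) (F := F) (fun _ => hD)
    (fun _ => hHL) (fun _ => hT)
  have hS : Sy W P.X P.D (f ()) := bf_sy (hf ()) (hl ())
  exact family_main (ι := Unit) (P := fun _ => P) (Q := Q) (M := 2 * P.X.dim) (τ := τ) (b := b)
    (d := d) ha hQ (by omega) (by omega) (fun _ => hD) (fun _ => hHL)
    (fun _ => lettersSpan_self ha hQc fun i hi => (hQ i hi).monic.ne_zero)
    (fun m hm _ => ⟨tate_le h.1 m (by omega), hodge_le hdeg (hf ()) hS h.2 m (by omega)⟩)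
    n fun _ => ()

end Power

section Class

variable {ι : Type w} {P : ι → Polarized 𝒱} {b d : ℕ}

/-- **Boundedly many factors decide both conjectures.** -/
theorem class_main' [IsAlgClosed W.K] (ha : 0 < a)
    (hD : ∀ i, (P i).X.IsCyc 1 (P i).D) (hHL : ∀ i, HardLefschetz W (P i).X (P i).D)
    (hP : ∀ i, Module.finrank W.K (W.H (P i).X) ≤ b ∧ (P i).X.dim ≤ d ∧ HasFrobPolys F (P i).X)
    (h : ∀ n < exactBound (letterBound (p ^ a) b d) d, ∀ c : Fin (n + 1) → ι,
      TateHodge F (nest ops n fun i => P (c i))) (n : ℕ) (c : Fin (n + 1) → ι) :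
    TateHodge F (nest ops n fun i => P (c i)) ∧
      HomEqNum W (nest ops n fun i => P (c i)).X := by
  let τ : Qb →+* W.K := (IsAlgClosed.lift : Qb →ₐ[ℚ] W.K).toRingHom
  exact family_main (M := 2 * d) (τ := τ) (Q := univPoly p (p ^ a) b d)
    (b := letterBound (p ^ a) b d) (d := d) ha (fun i _ => univPoly_isFrob i)
    sum_natDegree_univ le_rfl hD hHL
    (fun i => lettersSpan_univ ha (hP i).1 (hP i).2.1 (hP i).2.2) h n c

end Class

section Covers

variable {ι : Type w} {P : ι → Polarized 𝒱} {b d : ℕ}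

lemma covered (hD : ∀ i, (P i).X.IsCyc 1 (P i).D) {n : ℕ} {c : Fin (n + 1) → ι}
    (h : TateHodge F (nest ops n fun i => P (c i)) ∧ HomEqNum W (nest ops n fun i => P (c i)).X)
    (Y : Polarized 𝒱) (hY : Covers W (nest ops n fun i => P (c i)) Y) (hYD : Y.X.IsCyc 1 Y.D) :
    HodgeType W Y.X Y.D ∧ HomEqNum W Y.X :=
  ⟨hodge_of_covers hY (isCyc_nest fun i => hD (c i)) hYD h.1.2, homEqNum_of_covers hY h.2⟩

end Covers

end Pool.Agent.Q56.FH
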