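import Pool.Agent.Q56.FH.Split
import Pool.Agent.W552.TateB

/-!
# The Frobenius endomorphism, the form and the Lefschetz operator
-/

set_option autoImplicit false
set_option linter.unusedSectionVars false

open CategoryTheory AlgebraicGeometry
open scoped TensorProduct

universe u v w

namespace Pool.Agent.Q56.FH

open Pool.Agent.H914 Pool.Agent.H914.VarClass Pool.Agent.H914.VarClass.Obj
  Pool.Agent.H914.WeilCohomology Pool.Agent.H281R3.HT Pool.Agent.W552
  Pool.Agent.W458.MF Pool.Agent.Y133.Half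
  Pool.Agent.Q56.FD Pool.Agent.Q56.FE Pool.Agent.Q56.FR

variable {k : Type u} [Field k] {𝒱 : VarClass k} {ops : CycleOps 𝒱}
  {W : WeilCohomology.{u, v} ops} {q : ℕ} (F : FrobeniusOver W q)
  {X Y : 𝒱.Obj}

lemma eq_zero_of_one (h1 : (1 : W.H X) = 0) (a : W.H X) : a = 0 := by
  rw [← one_mul a, h1, zero_mul]

/-- the orientation and Frobenius -/
lemma tr_frob (a : W.H X) : W.tr X (W.map (F.Fr X) a) = (q : W.K) ^ X.dim * W.tr X a := by
  by_cases h : ∃ b ∈ W.gr X (2 * X.dim), W.tr X b ≠ 0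
  · obtain ⟨b, hb, hb0⟩ := h
    exact tr_map_of_top hb hb0 (F.deg hb) a
  · push Not at h
    have h0 : ∀ a : W.H X, W.tr X a = 0 := by
      intro a
      refine gr_induction (W.isInternal X) (p := fun a => W.tr X a = 0) ?_ ?_ a
      · intro i a ha
        by_cases hi : i = 2 * X.dim
        · subst hi; exact h a ha
        · exact W.tr_eq_zero ha hi
      · intro a b ha hb; rw [map_add, ha, hb, add_zero]
    rw [h0, h0, mul_zero]

/-- The divisor class is multiplied by `q`. -/
lemma frob_L {D : X.Cycles} (hD : X.IsCyc 1 D) (i : ℕ) (a : W.H X) :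
    W.map (F.Fr X) (((LinearMap.mulLeft W.K (W.cl X D)) ^ i) a) =
      (q : W.K) ^ i • ((LinearMap.mulLeft W.K (W.cl X D)) ^ i) (W.map (F.Fr X) a) := by
  induction i with
  | zero => simp
  | succ i ih =>
    rw [pow_succ', Module.End.mul_apply, LinearMap.mulLeft_apply, map_mul, F.cyc hD, ih, pow_one,
      smul_mul_smul_comm, ← pow_succ']
    rfl

variable {D : X.Cycles} {f : Module.End W.K (W.H X)}

/-- The star operator and Frobenius. -/
lemma frob_wop (hq : q ≠ 0) (hD : X.IsCyc 1 D)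
    (t : LefStr (W.isInternal X) X.dim (LinearMap.mulLeft W.K (W.cl X D)) f) {i : ℕ}
    {a : W.H X} (ha : a ∈ W.gr X i) :
    (q : W.K) ^ i • W.map (F.Fr X) (wop W X D f a) =
      (q : W.K) ^ X.dim • wop W X D f (W.map (F.Fr X) a) := by
  have hq0 : (q : W.K) ≠ 0 := by exact_mod_cast hq
  set L : Module.End W.K (W.H X) := LinearMap.mulLeft W.K (W.cl X D) with hL
  have key := lef_induction (n := X.dim) t.hL t.hbd t.hHL
    (p := fun i a => (q : W.K) ^ i • W.map (F.Fr X) (wop W X D f a) =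
      (q : W.K) ^ X.dim • wop W X D f (W.map (F.Fr X) a))
    (by
      intro i a b ha hb
      rw [map_add, map_add, smul_add, ha, hb, map_add, map_add, smul_add])
    (by
      intro i hi a ha hp j
      by_cases hj : X.dim - i < j
      · rw [L_pow_gt hp hj]; simp
      push Not at hj
      have hp' : (L ^ (X.dim - i + 1)) (W.map (F.Fr X) a) = 0 := by
        have h2 := frob_L F hD (X.dim - i + 1) a
        rw [← hL, hp, map_zero] at h2
        rcases smul_eq_zero.1 h2.symm with h3 | h3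
        · exact absurd h3 (pow_ne_zero _ hq0)
        · exact h3
      rw [frob_L F hD, ← hL, map_smul, wop, ← hL, t.w_L_pow hi ha hp hj, map_smul, frob_L F hD,
        ← hL, t.w_L_pow hi (W.map_mem _ ha) hp' hj]
      simp only [smul_smul]
      congr 1
      have h3 : (q : W.K) ^ (i + 2 * j) * (q : W.K) ^ (X.dim - i - j) =
          (q : W.K) ^ X.dim * (q : W.K) ^ j := by
        rw [← pow_add, ← pow_add]
        congr 1
        omega
      linear_combination ((-1 : W.K) ^ j * (j.factorial * ((X.dim - i - j).factorial : W.K)⁻¹)) * h3)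
  by_cases hi : i ≤ X.dim
  · simpa using key i hi a ha 0
  by_cases hi2 : i ≤ 2 * X.dim
  · obtain ⟨b, hb, hb'⟩ := (t.hHL (2 * X.dim - i) (by omega)).2 a
      (by rw [show 2 * X.dim - (2 * X.dim - i) = i by omega]; exact ha)
    have := key _ (by omega) b hb (X.dim - (2 * X.dim - i))
    rw [hb', show 2 * X.dim - i + 2 * (X.dim - (2 * X.dim - i)) = i by omega] at this
    exact this
  · rw [t.hbd i (by omega)] at ha
    rw [(Submodule.mem_bot _).1 ha]; simp

/-- **The form and Frobenius.** -/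
lemma bf_frob (hq : q ≠ 0) (G : Fr W X D f)
    (t : LefStr (W.isInternal X) X.dim (LinearMap.mulLeft W.K (W.cl X D)) f) {i : ℕ}
    (a : W.H X) {b : W.H X} (hb : b ∈ W.gr X i) :
    bf W X D f (W.map (F.Fr X) a) (W.map (F.Fr X) b) = (q : W.K) ^ i * bf W X D f a b := by
  have hq0 : (q : W.K) ^ X.dim ≠ 0 := pow_ne_zero _ (by exact_mod_cast hq)
  apply mul_left_cancel₀ hq0
  rw [bf_apply, bf_apply, st_apply hb, st_apply (W.map_mem _ hb), mul_smul_comm, mul_smul_comm,
    map_smul, map_smul, smul_eq_mul, smul_eq_mul]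
  have h1 := frob_wop F hq G.hD t hb
  have h2 : (q : W.K) ^ X.dim * W.tr X (W.map (F.Fr X) a * wop W X D f (W.map (F.Fr X) b)) =
      (q : W.K) ^ i * ((q : W.K) ^ X.dim * W.tr X (a * wop W X D f b)) := by
    rw [← smul_eq_mul ((q : W.K) ^ X.dim) (W.tr X (W.map (F.Fr X) a * _)), ← map_smul,
      ← mul_smul_comm, ← h1, mul_smul_comm, map_smul, smul_eq_mul, ← map_mul, tr_frob]
  linear_combination (sg i : W.K) * h2

/-- Eigenvectors which are not orthogonal have reciprocal eigenvalues. -/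
lemma eig_of_bf (hq : q ≠ 0) (G : Fr W X D f)
    (t : LefStr (W.isInternal X) X.dim (LinearMap.mulLeft W.K (W.cl X D)) f) {i j : ℕ}
    {a b : W.H X} {μ ν : W.K} (ha : a ∈ W.gr X i) (hb : b ∈ W.gr X j)
    (ha' : W.map (F.Fr X) a = μ • a) (hb' : W.map (F.Fr X) b = ν • b)
    (h0 : bf W X D f a b ≠ 0) : i = j ∧ μ * ν = (q : W.K) ^ i := by
  have hij : i = j := by
    by_contra hne
    exact h0 (G.bf_deg ha hb hne)
  subst hij
  refine ⟨rfl, ?_⟩
  have h1 := bf_frob F hq G t a hb
  rw [ha', hb', map_smul, map_smul, LinearMap.smul_apply, smul_eq_mul, smul_eq_mul] at h1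
  apply mul_right_cancel₀ h0
  rw [← h1]
  ring

section Prime

variable {p : ℕ} [Fact p.Prime] {a : ℕ} {F : FrobeniusOver W (p ^ a)}
  {Q : ℕ → Polynomial ℤ} {M : ℕ} {τ : Qb →+* W.K}

/-- External products of nonzero classes. -/
lemma ext_eq {x x' : W.H X} {y y' : W.H Y} (h : H281R3.HT.ext W x y = H281R3.HT.ext W x' y')
    (φ : W.H Y →ₗ[W.K] W.K) : φ y • x = φ y' • x' := by
  have h1 : (x ⊗ₜ[W.K] y : W.H X ⊗[W.K] W.H Y) = x' ⊗ₜ[W.K] y' := (W.kunneth X Y).1 h
  have h2 := congrArg (TensorProduct.lift ((LinearMap.lsmul W.K (W.H X)).flip.compl₂ φ)) h1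
  simpa using h2

/-- **The strong Tate conjecture for `X × X` implies that Frobenius is semisimple on `X`.** -/
theorem eig_of_strong (hX : LettersSpan F Q M τ X)
    (hT : StrongTateAll F (X.prod X)) {i : ℕ} {μ : W.K} {x : W.H X} (hx : x ∈ W.gr X i)
    (hxg : x ∈ (fr F X).maxGenEigenspace μ) : W.map (F.Fr X) x = μ • x := by
  by_cases hx0 : x = 0
  · rw [hx0, map_zero, smul_zero]
  have hq0 : ((p ^ a : ℕ) : W.K) ≠ 0 := by
    exact_mod_cast (pow_pos (Fact.out : p.Prime).pos a).ne'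
  -- a letter which is not orthogonal
  have hy : ∃ (lab : Letter Q M) (y : W.H X), y ∈ W.gr X lab.1.1 ∧
      y ∈ (fr F X).maxGenEigenspace (τ lab.1.2) ∧ W.tr X (x * y) ≠ 0 := by
    by_contra hcon
    push Not at hcon
    apply hx0
    apply W.nondeg
    intro b
    have hb := hX b
    induction hb using Submodule.span_induction with
    | mem y hy =>
      obtain ⟨lab, h1, h2⟩ := hy
      exact hcon lab y h1 h2
    | zero => rw [mul_zero, map_zero]
    | add y z _ _ hy hz => rw [mul_add, map_add, hy, hz, add_zero]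
    | smul c y _ hy => rw [mul_smul_comm, map_smul, hy, smul_zero]
  obtain ⟨lab, y, hy1, hy2, hy3⟩ := hy
  have hdeg : i + lab.1.1 = 2 * X.dim := by
    by_contra hne
    exact hy3 (W.tr_eq_zero (W.mul_mem hx hy1) hne)
  have htop : x * y ∈ W.gr X (2 * X.dim) := by
    rw [← hdeg]
    exact W.mul_mem hx hy1
  have hxy0 : x * y ≠ 0 := by
    intro h0
    rw [h0, map_zero] at hy3
    exact hy3 rfl
  have h1 : x * y ∈ (fr F X).maxGenEigenspace (μ * τ lab.1.2) :=
    gen_bilin (β := LinearMap.mul W.K (W.H X)) (fun x y =>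
      (map_mul (W.map (F.Fr X)) x y).symm) hxg hy2
  have h2 : x * y ∈ (fr F X).maxGenEigenspace (((p ^ a : ℕ) : W.K) ^ X.dim) :=
    eig_mem_gen (F.deg htop)
  have hμν := eq_of_mem_gen h1 h2 hxy0
  -- the external product
  have h3 : H281R3.HT.ext W x y ∈ (fr F (X.prod X)).maxGenEigenspace (μ * τ lab.1.2) :=
    gen_bilin (β := LinearMap.mul W.K (W.H (X.prod X))) (fun x y =>
      (map_mul (W.map (F.Fr (X.prod X))) x y).symm) (gen_pull (fst X X) hxg)
        (gen_pull (snd X X) hy2)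
  have h4 : H281R3.HT.ext W x y ∈ W.gr (X.prod X) (2 * X.dim) := by
    rw [← hdeg]
    exact W.mul_mem (W.map_mem _ hx) (W.map_mem _ hy1)
  rw [hμν] at h3
  have h5 := (isTateClass_of_span (F := F) (hT X.dim ⟨h3, h4⟩)).2
  have h6 : H281R3.HT.ext W (W.map (F.Fr X) x) (W.map (F.Fr X) y) =
      H281R3.HT.ext W ((((p ^ a : ℕ) : W.K) ^ X.dim) • x) y := by
    have e1 : H281R3.HT.ext W ((((p ^ a : ℕ) : W.K) ^ X.dim) • x) y =
        (((p ^ a : ℕ) : W.K) ^ X.dim) • H281R3.HT.ext W x y := by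
      rw [H281R3.HT.ext, map_smul, smul_mul_assoc, H281R3.HT.ext]
    rw [e1, ← h5, H281R3.HT.ext, H281R3.HT.ext, map_mul, ← W.map_comp, ← W.map_comp,
      ← W.map_comp, ← W.map_comp, F.nat, F.nat]
  -- separate the factors
  have hφ : ∃ φ : W.H X →ₗ[W.K] W.K, φ (W.map (F.Fr X) y) ≠ 0 := by
    by_contra hcon
    push Not at hcon
    have h7 := ext_eq h6 (W.tr X ∘ₗ LinearMap.mulLeft W.K x)
    have h8 := hcon (W.tr X ∘ₗ LinearMap.mulLeft W.K x)
    rw [h8, zero_smul] at h7
    have h9 : (W.tr X ∘ₗ LinearMap.mulLeft W.K x) y ≠ 0 := hy3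
    rcases smul_eq_zero.1 h7.symm with h10 | h10
    · exact h9 h10
    · rcases smul_eq_zero.1 h10 with h11 | h11
      · exact pow_ne_zero _ hq0 h11
      · exact hx0 h11
  obtain ⟨φ, hφ⟩ := hφ
  have h7 := ext_eq h6 φ
  have h8 : W.map (F.Fr X) x = ((φ (W.map (F.Fr X) y))⁻¹ * (φ y * ((p ^ a : ℕ) : W.K) ^ X.dim)) •
      x := by
    rw [mul_smul, mul_smul, ← h7, smul_smul, inv_mul_cancel₀ hφ, one_smul]
  have h9 := eq_of_mem_gen (eig_mem_gen (T := fr F X) h8) hxg hx0
  rw [h9] at h8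
  exact h8

/-- The eigenvectors span. -/
def EigSpan (F : FrobeniusOver W (p ^ a)) (Q : ℕ → Polynomial ℤ) (M : ℕ)
    (τ : Qb →+* W.K) (Y : 𝒱.Obj) : Prop :=
  ∀ y : W.H Y, y ∈ Submodule.span W.K {x | ∃ lab : Letter Q M, x ∈ W.gr Y lab.1.1 ∧
    W.map (F.Fr Y) x = τ lab.1.2 • x}

lemma eigSpan_of (hX : LettersSpan F Q M τ X) (hT : StrongTateAll F (X.prod X)) :
    EigSpan F Q M τ X := by
  intro y
  refine Submodule.span_mono ?_ (hX y)
  rintro x ⟨lab, hx, hg⟩
  exact ⟨lab, hx, eig_of_strong hX hT hx hg⟩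

end Prime

/-- **The Tate conjecture for `X × X` implies the Lefschetz standard conjecture for `X`.** -/
theorem lefschetzB_of_strong (hq : q ≠ 0) {D : X.Cycles} (hD : X.IsCyc 1 D)
    (hHL : HardLefschetz W X D) (hT : StrongTateAll F (X.prod X)) : LefschetzB W X D := by
  by_cases h1 : (1 : W.H X) = 0
  · have h0 : ∀ a : W.H X, a = 0 := fun a => by rw [← one_mul a, h1, zero_mul]
    exact ⟨0, SmVar.IsCyc.zero _ _, fun i hi a _ _ => ⟨h0 _, fun j _ => (h0 _).trans (h0 _).symm⟩⟩
  set n := X.dim with hn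
  set L : Module.End W.K (W.H X) := LinearMap.mulLeft W.K (W.cl X D) with hLdef
  have hL : IsHom (W.gr X) 2 L := by
    simpa using rop_opAlg.hom (rop_mulLeft (W := W) hD)
  set φ := F.Fr X with hφ
  set Q : W.K := (q : W.K) with hQ
  have hQ0 : Q ≠ 0 := by
    rw [hQ]
    exact Nat.cast_ne_zero.2 hq
  have hLφ : ∀ (i : ℕ) (a : W.H X), W.map φ ((L ^ i) a) = Q ^ i • (L ^ i) (W.map φ a) :=
    fun i a => frob_L F hD i a
  -- the degree of the endomorphism
  set b : W.H X := (L ^ n) 1 with hb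
  have hbm : b ∈ W.gr X (2 * X.dim) := by
    have := pow_L_mem hL (W.one_mem X) n
    rwa [zero_add] at this
  have hb0 : W.tr X b ≠ 0 := by
    intro h0
    apply h1
    exact (hHL 0 (Nat.zero_le _)).1 1 (W.one_mem X) (by
      rw [Nat.sub_zero]; exact eq_zero_of_top hbm h0)
  have hφb : W.map φ b = Q ^ n • b := by rw [hb, hLφ, map_one]
  have hδ := tr_map_of_top hbm hb0 hφb
  have hδ0 : Q ^ n ≠ 0 := pow_ne_zero _ hQ0
  -- the Lefschetz operator
  obtain ⟨Φ, hΦh, hΦ⟩ := exists_isLam (W.isInternal X) hL W_hbd hHL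
  have hcomm : ∀ y, Φ (W.map φ y) = Q • W.map φ (Φ y) := by
    intro y
    refine lef_induction' (W.isInternal X) hL W_hbd hHL
      (p := fun y => Φ (W.map φ y) = Q • W.map φ (Φ y)) ?_ ?_ y
    · intro a c ha hc
      rw [map_add, map_add, ha, hc, map_add, map_add, smul_add]
    · intro i hi u hu hpu j
      by_cases hj : n - i < j
      · rw [L_pow_gt hpu hj, map_zero, map_zero, map_zero, smul_zero]
      · have hpu' : (L ^ (n - i + 1)) (W.map φ u) = 0 := by
          have h2 := hLφ (n - i + 1) u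
          rw [hpu, map_zero] at h2
          rcases smul_eq_zero.1 h2.symm with h3 | h3
          · exact absurd h3 (pow_ne_zero _ hQ0)
          · exact h3
        rcases Nat.eq_zero_or_pos j with rfl | h0
        · rw [pow_zero, Module.End.one_apply, (hΦ i hi _ (W.map_mem φ hu) hpu').1,
            (hΦ i hi u hu hpu).1, map_zero, smul_zero]
        · obtain ⟨j, rfl⟩ : ∃ j', j = j' + 1 := ⟨j - 1, by omega⟩
          rw [hLφ, map_smul, (hΦ i hi _ (W.map_mem φ hu) hpu').2 j (by omega),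
            (hΦ i hi u hu hpu).2 j (by omega), hLφ, smul_smul, pow_succ']
  -- its class
  set γ : W.H (X.prod X) := (corrEquiv W X).symm Φ with hγ
  have hcγ : W.corr γ = Φ := (corrEquiv W X).apply_symm_apply Φ
  have hinj : Function.Injective (W.map φ) := by
    intro a c h
    rw [← sub_eq_zero]
    have h2 : W.map φ (a - c) = 0 := by rw [map_sub, h, sub_self]
    have h3 := push_map hδ (a - c)
    rw [h2, map_zero] at h3
    exact (smul_eq_zero.1 h3.symm).resolve_left hδ0
  have hsurj : Function.Surjective (W.map φ) :=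
    (LinearMap.injective_iff_surjective (f := (W.map φ).toLinearMap)).1 hinj
  by_cases hn1 : n = 0
  · have hΦ0 : Φ = 0 := by
      apply gr_ext (W.isInternal X)
      intro i a ha
      have h2 := hΦh i a (by rw [grZ_natCast]; exact ha)
      by_cases hi : i = 0
      · subst hi
        rw [grZ_of_neg (by norm_num)] at h2
        exact (Submodule.mem_bot _).1 h2
      · rw [W.gr_eq_bot X i (by omega)] at ha
        rw [(Submodule.mem_bot _).1 ha, map_zero, LinearMap.zero_apply]
    refine ⟨0, SmVar.IsCyc.zero _ _, ?_⟩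
    rw [InducesLambda, map_zero, corr_zero, ← hΦ0]
    exact hΦ
  have hγm : γ ∈ W.gr (X.prod X) (2 * (n - 1)) := by
    apply gr_of_corr
    intro i a ha
    rw [hcγ]
    have h2 := hΦh i a (by rw [grZ_natCast]; exact ha)
    have e : (i : ℤ) + -2 = ((2 * (n - 1) : ℕ) : ℤ) + i - 2 * X.dim := by omega
    rwa [e] at h2
  have hγφ : W.map (squareMap φ) γ = Q ^ (n - 1) • γ := by
    rw [← sub_eq_zero]
    apply corr_inj
    apply LinearMap.ext
    intro y
    obtain ⟨a, rfl⟩ := hsurj y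
    have h2 := corr_squareMap hδ γ a
    rw [hcγ] at h2
    have h3 : W.corr (W.map (squareMap φ) γ - Q ^ (n - 1) • γ) =
        W.corr (W.map (squareMap φ) γ) - Q ^ (n - 1) • W.corr γ := by
      have e1 := map_sub (corrEquiv W X) (W.map (squareMap φ) γ) (Q ^ (n - 1) • γ)
      rw [map_smul (corrEquiv W X)] at e1
      exact e1
    rw [h3, LinearMap.sub_apply, h2, LinearMap.smul_apply, hcγ, hcomm, smul_smul, ← pow_succ,
      show n - 1 + 1 = n by omega, LinearMap.zero_apply, sub_self]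
  have hsq : ∀ c, W.map (F.Fr (X.prod X)) c = W.map (squareMap φ) c := by
    intro c
    refine W.kunneth_induction (p := fun c => W.map (F.Fr (X.prod X)) c =
      W.map (squareMap φ) c) ?_ ?_ c
    · intro a b ha hb; rw [map_add, ha, hb, map_add]
    · intro i j a _ b _
      rw [map_squareMap, map_mul, ← W.map_comp, ← W.map_comp, F.nat, F.nat, W.map_comp,
        W.map_comp]
  have hγs' := hT (n - 1) ⟨eig_mem_gen (by
    change W.map (F.Fr (X.prod X)) γ = _
    rw [hsq, hγφ]), hγm⟩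
  apply ((lefschetzB_tfae hD hHL).out 1 0).1
  refine ⟨γ, ?_, by rw [hcγ]; exact hΦ⟩
  rwa [show ((n - 1 : ℕ) : ℤ) = (X.dim : ℤ) - 1 by omega] at hγs'

end Pool.Agent.Q56.FH
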