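import Pool.Agent.Q56.FH.Proj

/-!
# The standard conjecture of Hodge type and the strong Tate conjecture for products
-/

set_option autoImplicit false
set_option linter.unusedSectionVars false

open CategoryTheory AlgebraicGeometry

universe u v w

namespace Pool.Agent.Q56.FH

open Pool.Agent.H914 Pool.Agent.H914.VarClass Pool.Agent.H914.VarClass.Obj
  Pool.Agent.H914.WeilCohomology Pool.Agent.H281R3.HT Pool.Agent.W552
  Pool.Agent.W458.MF Pool.Agent.Y133.Half
  Pool.Agent.Q56.FD Pool.Agent.Q56.FE Pool.Agent.Q56.FR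

open Polynomial (aeval)

section Comb

variable {n : ℕ}

/-- Every partition into two parts is given by a splitting. -/
lemma exists_spl (S : Finset (Fin (n + 1))) (h1 : S.Nonempty) (h2 : Sᶜ.Nonempty) :
    ∃ (m m' : ℕ) (e' : Fin (m' + 1) → Fin (n + 1)) (e : Fin (m + 1) → Fin (n + 1)),
      Spl e' e ∧ Finset.univ.image e = S ∧ m < n ∧ m' < n := by
  classical
  obtain ⟨m, hm⟩ : ∃ m, S.card = m + 1 := ⟨S.card - 1, by have := h1.card_pos; omega⟩
  obtain ⟨m', hm'⟩ : ∃ m', Sᶜ.card = m' + 1 := ⟨Sᶜ.card - 1, by have := h2.card_pos; omega⟩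
  have hsum : S.card + Sᶜ.card = n + 1 := by
    rw [Finset.card_add_card_compl, Fintype.card_fin]
  let e := S.orderEmbOfFin hm
  let e' := Sᶜ.orderEmbOfFin hm'
  have he : Finset.univ.image e = S := by
    rw [← Finset.coe_inj, Finset.coe_image, Finset.coe_univ, Set.image_univ]
    exact Finset.range_orderEmbOfFin S hm
  have hr : ∀ a, a ∈ S ↔ ∃ i, e i = a := by
    intro a
    rw [← he, Finset.mem_image]
    simp
  have hr' : ∀ a, a ∉ S ↔ ∃ i, e' i = a := by
    intro a
    have h3 : Set.range e' = (Sᶜ : Finset (Fin (n + 1))) := Finset.range_orderEmbOfFin Sᶜ hm'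
    rw [← Finset.mem_compl, ← Finset.mem_coe, ← h3]
    rfl
  refine ⟨m, m', e', e, ?_, he, by omega, by omega⟩
  refine (List.perm_ext_iff_of_nodup (List.nodup_finRange _) ?_).2 fun a => ?_
  · rw [List.nodup_append]
    refine ⟨(List.nodup_finRange _).map e'.injective, (List.nodup_finRange _).map e.injective, ?_⟩
    intro a ha b hb hab
    subst hab
    obtain ⟨i, _, hi⟩ := List.mem_map.1 ha
    obtain ⟨j, _, hj⟩ := List.mem_map.1 hb
    exact (hr' a).2 ⟨i, hi⟩ ((hr a).2 ⟨j, hj⟩)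
  · refine ⟨fun _ => ?_, fun _ => List.mem_finRange a⟩
    rw [List.mem_append, List.mem_map, List.mem_map]
    by_cases ha : a ∈ S
    · obtain ⟨i, hi⟩ := (hr a).1 ha
      exact Or.inr ⟨i, List.mem_finRange i, hi⟩
    · obtain ⟨i, hi⟩ := (hr' a).1 ha
      exact Or.inl ⟨i, List.mem_finRange i, hi⟩

end Comb

variable {k : Type u} [Field k] {𝒱 : VarClass k} {ops : CycleOps 𝒱}
  {W : WeilCohomology.{u, v} ops} {p : ℕ} [Fact p.Prime] {a : ℕ}
  {F : FrobeniusOver W (p ^ a)} {Q : ℕ → Polynomial ℤ} {M : ℕ} {τ : Qb →+* W.K}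

section Fam

variable {n m m' : ℕ} {P : Fin (n + 1) → Polarized 𝒱}
  {e' : Fin (m' + 1) → Fin (n + 1)} {e : Fin (m + 1) → Fin (n + 1)}

/-- The Frobenius endomorphism on a word. -/
lemma frob_nw {lab : Fin (n + 1) → Letter Q M} {x : ∀ i, W.H (P i).X} (hx : IsW F τ P lab x) :
    W.map (F.Fr (nest ops n P).X) (nw W P x) = τ (∏ i, (lab i).1.2) • nw W P x := by
  have h1 : wd W (prj ops n P) (List.finRange (n + 1))
      (fun i => W.map (F.Fr (P i).X) (x i)) = wd W (prj ops n P) (List.finRange (n + 1))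
        (fun i => τ (lab i).1.2 • x i) := by
    congr 1
    funext i
    exact (hx i).2
  rw [nw, frob_wd, h1, wd_scale, ← Fin.prod_univ_def, map_prod]

lemma nw_gr {lab : Fin (n + 1) → Letter Q M} {x : ∀ i, W.H (P i).X} (hx : IsW F τ P lab x) :
    nw W P x ∈ W.gr (nest ops n P).X (∑ i, (lab i).1.1) := by
  have h1 := wd_mem (W := W) (prj ops n P) (δ := fun i => (lab i).1.1) (fun i => (hx i).1)
    (List.finRange (n + 1))
  rwa [← Fin.sum_univ_def] at h1

/-- Exact words are Tate classes. -/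
lemma nw_TC1 (ha : 0 < a) {lab : Fin (n + 1) → Letter Q M} {x : ∀ i, W.H (P i).X}
    (hx : IsW F τ P lab x) {j : ℕ} (h1 : ∏ i, (lab i).1.2 = ((p ^ a : ℕ) : Qb) ^ j)
    (h2 : ∑ i, (lab i).1.1 = 2 * j) : nw W P x ∈ TC1 F ha (nest ops n P).X := by
  refine TC1.of (j := j) ?_
  rw [genTate_eq]
  refine ⟨?_, ?_⟩
  · have h3 := frob_nw hx
    rw [h1, map_pow, map_natCast] at h3
    exact eig_mem_gen h3
  · rw [← h2]
    exact nw_gr hx

/-- The exact words. -/
def ExWords (F : FrobeniusOver W (p ^ a)) (Q : ℕ → Polynomial ℤ) (M : ℕ) (τ : Qb →+* W.K)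
    {n : ℕ} (P : Fin (n + 1) → Polarized 𝒱) : Set (W.H (nest ops n P).X) :=
  {z | ∃ (lab : Fin (n + 1) → Letter Q M) (x : ∀ i, W.H (P i).X), IsW F τ P lab x ∧
    ExOn (p ^ a) lab Finset.univ ∧ nw W P x = z}

/-- The Tate classes are spanned by the exact words. -/
lemma TC1_le_ex (ha : 0 < a) (hQ : ∀ i ≤ M, IsFrobPoly p (p ^ a) i (Q i))
    (hP : ∀ i, EigSpan F Q M τ (P i).X) {y : W.H (nest ops n P).X}
    (hy : y ∈ TC1 F ha (nest ops n P).X) : y ∈ Submodule.span W.K (ExWords F Q M τ P) := by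
  refine TC1.ind (q := fun y => y ∈ Submodule.span W.K (ExWords F Q M τ P)) ?_
    (Submodule.zero_mem _) (fun x y hx hy => Submodule.add_mem _ hx hy) hy
  intro j x hx
  rw [genTate_eq] at hx
  have h3 := mem_span_gen (T := fr F (nest ops n P).X) (M := Words F Q M τ P)
    (fun v hv => by
      obtain ⟨lab, x, hx, rfl⟩ := hv
      exact ⟨_, eig_mem_gen (frob_nw hx)⟩) (words_span hP x) hx.1
  refine (Submodule.span_le (p := Submodule.span W.K (ExWords F Q M τ P))).2 ?_ h3
  rintro v ⟨⟨lab, x, hx, rfl⟩, hvμ⟩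
  by_cases hv0 : nw W P x = 0
  · rw [hv0]
    exact Submodule.zero_mem _
  have h4 := eq_of_mem_gen (eig_mem_gen (T := fr F (nest ops n P).X) (frob_nw hx)) hvμ hv0
  have h5 : ∏ i, (lab i).1.2 = ((p ^ a : ℕ) : Qb) ^ j := by
    apply τ.injective
    rw [h4, map_pow, map_natCast]
  refine Submodule.subset_span ⟨lab, x, hx, ⟨j, ?_, ?_⟩, rfl⟩
  · rw [pr_eq]
    exact h5
  · rw [← pr_eq lab Finset.univ] at h5
    exact exact_of_pr ha hQ h5

lemma AS_TC1 (ha : 0 < a) {Y : 𝒱.Obj} {x : W.H Y} (hx : AS W Y x) : x ∈ TC1 F ha Y := by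
  refine AS.ind (p := fun x => x ∈ TC1 F ha Y) ?_ (fun x y hx hy => Submodule.add_mem _ hx hy) hx
  rintro j x ⟨z, hz, rfl⟩
  refine TC1.of (j := j) ?_
  rw [genTate_eq]
  exact ⟨eig_mem_gen (F.cyc hz), W.cl_mem hz⟩

lemma algSpan_le_AS {Y : 𝒱.Obj} {x : W.H Y} (hx : x ∈ algSpan W Y) :
    x ∈ Submodule.span W.K {z | AS W Y z} := by
  refine Submodule.span_mono ?_ hx
  intro z hz
  obtain ⟨j, hj⟩ := Set.mem_iUnion.1 hz
  exact AS.of hj

lemma AS_le_algSpan {Y : 𝒱.Obj} {x : W.H Y} (hx : AS W Y x) : x ∈ algSpan W Y := by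
  refine AS.ind (p := fun x => x ∈ algSpan W Y) ?_ (fun x y hx hy => Submodule.add_mem _ hx hy) hx
  intro j x hx
  exact Submodule.subset_span (Set.mem_iUnion.2 ⟨j, hx⟩)

lemma mx_span {u : W.H (part ops P e').X} {v : W.H (part ops P e).X}
    (hu : u ∈ Submodule.span W.K {z | AS W _ z}) (hv : v ∈ Submodule.span W.K {z | AS W _ z}) :
    mx W P e' e u v ∈ Submodule.span W.K {z | AM W P e' e z} := by
  induction hu using Submodule.span_induction with
  | zero => rw [mx_zero_left]; exact Submodule.zero_mem _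
  | add x y _ _ hx hy => rw [mx_add_left]; exact Submodule.add_mem _ hx hy
  | smul c x _ hx => rw [mx_smul_left]; exact Submodule.smul_mem _ _ hx
  | mem u hu =>
  induction hv using Submodule.span_induction with
  | zero => rw [mx_zero_right]; exact Submodule.zero_mem _
  | add x y _ _ hx hy => rw [mx_add_right]; exact Submodule.add_mem _ hx hy
  | smul c x _ hx => rw [mx_smul_right]; exact Submodule.smul_mem _ _ hx
  | mem v hv => exact Submodule.subset_span (AM.of hu hv)

lemma prod_image (h : Spl e' e) {K : Type*} [CommMonoid K] (g : Fin (n + 1) → K) :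
    ∏ i ∈ Finset.univ.image e, g i = ∏ i, g (e i) :=
  Finset.prod_image fun i _ j _ hij => h.inj hij

lemma sum_image (h : Spl e' e) {K : Type*} [AddCommMonoid K] (g : Fin (n + 1) → K) :
    ∑ i ∈ Finset.univ.image e, g i = ∑ i, g (e i) :=
  Finset.sum_image fun i _ j _ hij => h.inj hij

lemma sum_spl (h : Spl e' e) (g : Fin (n + 1) → ℕ) :
    ∑ a, g a = (∑ i, g (e' i)) + ∑ i, g (e i) := by
  have h1 := h.prod (K := Multiplicative ℕ) fun a => Multiplicative.ofAdd (g a)
  have h2 := congrArg Multiplicative.toAdd h1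
  rw [toAdd_mul, toAdd_prod, toAdd_prod, toAdd_prod] at h2
  exact h2

/-- **Exact words which are exact on a part are generated by the parts.** -/
theorem word_AM (ha : 0 < a) (h : Spl e' e)
    (hT' : TC1 F ha (part ops P e').X ≤ algSpan W (part ops P e').X)
    (hT : TC1 F ha (part ops P e).X ≤ algSpan W (part ops P e).X)
    {lab : Fin (n + 1) → Letter Q M} {x : ∀ i, W.H (P i).X} (hx : IsW F τ P lab x)
    (h1 : ExOn (p ^ a) lab Finset.univ) (h2 : ExOn (p ^ a) lab (Finset.univ.image e)) :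
    nw W P x ∈ Submodule.span W.K {z | AM W P e' e z} := by
  obtain ⟨ε, hε1, hε2⟩ := nw_eq_mx (W := W) (P := P) h (fun i => (lab i).1.1)
  have h3 := hε2 x fun i => (hx i).1
  have h4 : nw W P x = (ε : W.K) • mx W P e' e (nw W (fun i => P (e' i)) fun i => x (e' i))
        (nw W (fun i => P (e i)) fun i => x (e i)) := by
    rw [h3, smul_smul]
    have h5 : (ε : W.K) * (ε : W.K) = 1 := by
      exact_mod_cast congrArg (Int.cast (R := W.K)) hε1
    rw [h5, one_smul]
  rw [h4]
  refine Submodule.smul_mem _ _ (mx_span (algSpan_le_AS (hT' ?_)) (algSpan_le_AS (hT ?_)))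
  · obtain ⟨j, hj, hd⟩ := h1
    obtain ⟨i, hi, hd'⟩ := h2
    rw [pr_eq] at hj hi
    rw [dg_eq] at hd hd'
    rw [prod_image h] at hi
    rw [sum_image h] at hd'
    rw [h.prod fun i => (lab i).1.2, hi] at hj
    rw [sum_spl h fun i => (lab i).1.1, hd'] at hd
    have hij : i ≤ j := by omega
    have hq0 : ((p ^ a : ℕ) : Qb) ≠ 0 := by
      exact_mod_cast (pow_pos (Fact.out : p.Prime).pos a).ne'
    refine nw_TC1 (lab := fun i => lab (e' i)) (j := j - i) ha (fun i => hx (e' i)) ?_ ?_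
    · apply mul_right_cancel₀ (pow_ne_zero i hq0)
      rw [hj, ← pow_add, Nat.sub_add_cancel hij]
    · omega
  · obtain ⟨i, hi, hd'⟩ := h2
    rw [pr_eq, prod_image h] at hi
    rw [dg_eq, sum_image h] at hd'
    exact nw_TC1 (lab := fun i => lab (e i)) (j := i) ha (fun i => hx (e i)) hi hd'

/-- Combinatorial input: the exact word has an exact proper part. -/
def HasPart (q : ℕ) (lab : Fin (n + 1) → Letter Q M) : Prop :=
  ∃ S : Finset (Fin (n + 1)), S.Nonempty ∧ Sᶜ.Nonempty ∧ ExOn q lab S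

variable {f : ∀ i, Module.End W.K (W.H (P i).X)}

/-- The inductive statement for one product. -/
def Ind (F : FrobeniusOver W (p ^ a)) (ha : 0 < a) {n : ℕ} (P : Fin (n + 1) → Polarized 𝒱)
    (f : ∀ i, Module.End W.K (W.H (P i).X)) : Prop :=
  TC1 F ha (nest ops n P).X ≤ algSpan W (nest ops n P).X ∧
    ∀ g : Module.End W.K (W.H (nest ops n P).X), Fr W (nest ops n P).X (nest ops n P).D g →
      Sy W (nest ops n P).X (nest ops n P).D g →
      (∀ x y : ∀ i, W.H (P i).X, bf W (nest ops n P).X (nest ops n P).D g (nw W P x)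
        (nw W P y) = ∏ i, bf W (P i).X (P i).D (f i) (x i) (y i)) →
      PosOn W (nest ops n P).X (nest ops n P).D g

/-- **The induction step.** -/
theorem ind_step (ha : 0 < a) (hQ : ∀ i ≤ M, IsFrobPoly p (p ^ a) i (Q i))
    (hP : ∀ i, EigSpan F Q M τ (P i).X)
    (hF : ∀ i, Fr W (P i).X (P i).D (f i))
    (hS : ∀ i, Sy W (P i).X (P i).D (f i))
    (hL : ∀ i, LefStr (W.isInternal (P i).X) (P i).X.dim
      (LinearMap.mulLeft W.K (W.cl (P i).X (P i).D)) (f i))
    (hC : ∀ lab : Fin (n + 1) → Letter Q M, ExOn (p ^ a) lab Finset.univ → HasPart (p ^ a) lab)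
    (ih : ∀ (m : ℕ) (e : Fin (m + 1) → Fin (n + 1)), m < n →
      Ind F ha (fun i => P (e i)) fun i => f (e i)) : Ind F ha P f := by
  classical
  constructor
  · intro y hy
    refine (Submodule.span_le (p := algSpan W (nest ops n P).X)).2 ?_ (TC1_le_ex ha hQ hP hy)
    rintro z ⟨lab, x, hx, hex, rfl⟩
    obtain ⟨S, h1, h2, h3⟩ := hC lab hex
    obtain ⟨m, m', e', e, hspl, rfl, hm, hm'⟩ := exists_spl S h1 h2
    have h4 := word_AM ha hspl (ih m' e' hm').1 (ih m e hm).1 hx hex h3
    refine (Submodule.span_le (p := algSpan W (nest ops n P).X)).2 ?_ h4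
    intro z hz
    exact AS_le_algSpan (AM.AS hz)
  · intro g G hGS hg x hx hx0
    choose R hR using fun S : Finset (Fin (n + 1)) => exists_Sel (M := M) ha hQ S
    let l : List (Module.End W.K (W.H (nest ops n P).X)) :=
      ((Finset.univ : Finset (Finset (Fin (n + 1)))).filter
        fun S => S.Nonempty ∧ Sᶜ.Nonempty).toList.map fun S => TS F P S (R S)
    have hl : ∀ T ∈ l, ∃ S : Finset (Fin (n + 1)), S.Nonempty ∧ Sᶜ.Nonempty ∧
        TS F P S (R S) = T := by
      intro T hT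
      obtain ⟨S, hS, rfl⟩ := List.mem_map.1 hT
      have h1 := (Finset.mem_filter.1 (Finset.mem_toList.1 hS)).2
      exact ⟨S, h1.1, h1.2, rfl⟩
    refine pos_of_kill l ?_ x hx ?_ hx0
    · intro T hT
      obtain ⟨S, h1, h2, rfl⟩ := hl T hT
      refine ⟨fun x hx => TS_AS S (R S) hx, fun x y => TS_adj hP hF hS hL hg (hR S) x y,
        fun x => TS_idem hP (hR S) x, fun x hx hTx hx0 => ?_⟩
      obtain ⟨m, m', e', e, hspl, heS, hm, hm'⟩ := exists_spl S h1 h2
      obtain ⟨g', G', S', hg'⟩ := exists_form (W := W) (fun i => P (e' i)) (fun i => f (e' i))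
        (fun i => hF (e' i)) fun i => hS (e' i)
      obtain ⟨g'', G'', S'', hg''⟩ := exists_form (W := W) (fun i => P (e i)) (fun i => f (e i))
        (fun i => hF (e i)) fun i => hS (e i)
      have hB : BfMx W P e' e g g' g'' := fun u u' v v' => bf_mx hF hspl hg hg' hg'' u u' v v'
      refine AM_span hB G hGS G' S' ((ih m' e' hm').2 g' G' S' hg')
        ((ih m e hm).2 g'' G'' S'' hg'') hx ?_ hx0
      rw [← hTx]
      have h3 := TC1_le_ex (τ := τ) ha hQ hP (AS_TC1 (F := F) ha hx)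
      clear hTx hx hx0
      induction h3 using Submodule.span_induction with
      | mem z hz =>
        obtain ⟨lab, y, hy, hex, rfl⟩ := hz
        by_cases hlS : ExOn (p ^ a) lab S
        · rw [(TS_word (hR S) hy).1 hlS]
          refine word_AM ha hspl (ih m' e' hm').1 (ih m e hm).1 hy hex ?_
          rw [heS]
          exact hlS
        · rw [(TS_word (hR S) hy).2 hlS]
          exact Submodule.zero_mem _
      | zero => rw [map_zero]; exact Submodule.zero_mem _
      | add x y _ _ hx hy => rw [map_add]; exact Submodule.add_mem _ hx hy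
      | smul c x _ hx => rw [map_smul]; exact Submodule.smul_mem _ _ hx
    · have h3 := TC1_le_ex (τ := τ) ha hQ hP (AS_TC1 (F := F) ha hx)
      clear hx hx0
      induction h3 using Submodule.span_induction with
      | mem z hz =>
        obtain ⟨lab, y, hy, hex, rfl⟩ := hz
        refine Kill.of_mem l (fun T hT => ?_) ?_
        · obtain ⟨S, -, -, rfl⟩ := hl T hT
          by_cases hlS : ExOn (p ^ a) lab S
          · exact Or.inl ((TS_word (hR S) hy).1 hlS)
          · exact Or.inr ((TS_word (hR S) hy).2 hlS)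
        · obtain ⟨S, h1, h2, h3⟩ := hC lab hex
          refine ⟨TS F P S (R S), List.mem_map.2 ⟨S, ?_, rfl⟩, (TS_word (hR S) hy).1 h3⟩
          rw [Finset.mem_toList, Finset.mem_filter]
          exact ⟨Finset.mem_univ _, h1, h2⟩
      | zero => exact Kill.zero l
      | add x y _ _ hx hy => exact Kill.add l hx hy
      | smul c x _ hx => exact Kill.smul l c hx

end Fam

end Pool.Agent.Q56.FH
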