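import Pool.Agent.Q56.FH.Frob

/-!
# Positivity on the classes generated by the two parts of a splitting
-/

set_option autoImplicit false
set_option linter.unusedSectionVars false

open CategoryTheory AlgebraicGeometry

universe u v w

namespace Pool.Agent.Q56.FH

open Pool.Agent.H914 Pool.Agent.H914.VarClass Pool.Agent.H914.VarClass.Obj
  Pool.Agent.H914.WeilCohomology Pool.Agent.H281R3.HT Pool.Agent.W552
  Pool.Agent.Q56.FD Pool.Agent.Q56.FE

variable {k : Type u} [Field k] {𝒱 : VarClass k} {ops : CycleOps 𝒱}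
  {W : WeilCohomology.{u, v} ops} {X : 𝒱.Obj} {D : X.Cycles} {g : Module.End W.K (W.H X)}

/-- The form is positive definite on the sums of algebraic classes. -/
def PosOn (W : WeilCohomology.{u, v} ops) (X : 𝒱.Obj) (D : X.Cycles)
    (g : Module.End W.K (W.H X)) : Prop :=
  ∀ x, AS W X x → x ≠ 0 → ∃ r : ℚ, 0 < r ∧ bf W X D g x x = r

lemma par_AS {x : W.H X} (hx : AS W X x) : par (W.isInternal X) x = x := by
  refine AS.ind (p := fun x => par (W.isInternal X) x = x) ?_ ?_ hx
  · intro j x hx
    rw [par, scal_apply _ _ (alg_gr hx), pow_mul]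
    simp
  · intro a b ha hb
    rw [map_add, ha, hb]

lemma bf_symm_AS (S : Sy W X D g) {x y : W.H X} (hy : AS W X y) :
    bf W X D g x y = bf W X D g y x := by
  rw [S x y, par_AS hy]

lemma PosOn.nonneg (h : PosOn W X D g) {x : W.H X} (hx : AS W X x) :
    ∃ r : ℚ, 0 ≤ r ∧ bf W X D g x x = r := by
  by_cases h0 : x = 0
  · exact ⟨0, le_rfl, by rw [h0]; simp⟩
  · obtain ⟨r, hr, hr'⟩ := h x hx h0
    exact ⟨r, hr.le, hr'⟩

/-- A rational orthogonal basis of the sums of algebraic classes. -/
lemma PosOn.basis (G : Fr W X D g) (S : Sy W X D g) (h : PosOn W X D g) :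
    ∃ (N : ℕ) (ε : Fin N → W.H X) (w : Fin N → ℚ), (∀ i, AS W X (ε i)) ∧ (∀ i, 0 < w i) ∧
      (∀ i j, bf W X D g (ε i) (ε j) = if i = j then (w i : W.K) else 0) ∧
      ∀ x, AS W X x → ∃ r : Fin N → ℚ, x = ∑ i, (r i : W.K) • ε i := by
  obtain ⟨N, ε, w, h1, h2, h3, h4⟩ := exists_ratBasis (AS.ratSub (W := W) (X := X))
    (bf W X D g) (fun x y hx hy => G.bf_rat hx hy) (fun x y hx hy => bf_symm_AS S hy) h
  exact ⟨N, ε, w, h1, h2, h3, fun x hx => h4 x (Submodule.subset_span hx)
    fun i => G.bf_rat hx (h1 i)⟩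

section Parts

variable {n m m' : ℕ} {P : Fin (n + 1) → Polarized 𝒱} {e' : Fin (m' + 1) → Fin (n + 1)}
  {e : Fin (m + 1) → Fin (n + 1)}

/-- The rational combinations of products of algebraic classes on the two parts. -/
def AM (W : WeilCohomology.{u, v} ops) (P : Fin (n + 1) → Polarized 𝒱)
    (e' : Fin (m' + 1) → Fin (n + 1)) (e : Fin (m + 1) → Fin (n + 1))
    (z : W.H (nest ops n P).X) : Prop :=
  z ∈ AddSubmonoid.closure {z | ∃ u v, AS W (part ops P e').X u ∧ AS W (part ops P e).X v ∧
    z = mx W P e' e u v}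

lemma AM.of {u : W.H (part ops P e').X} {v : W.H (part ops P e).X} (hu : AS W _ u)
    (hv : AS W _ v) : AM W P e' e (mx W P e' e u v) :=
  AddSubmonoid.subset_closure ⟨u, v, hu, hv, rfl⟩

@[elab_as_elim]
lemma AM.ind {p : W.H (nest ops n P).X → Prop} (h1 : ∀ u v, AS W (part ops P e').X u →
    AS W (part ops P e).X v → p (mx W P e' e u v)) (h2 : ∀ x y, p x → p y → p (x + y))
    {z : W.H (nest ops n P).X} (hz : AM W P e' e z) : p z := by
  induction hz using AddSubmonoid.closure_induction with
  | mem x hx =>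
    obtain ⟨u, v, hu, hv, rfl⟩ := hx
    exact h1 u v hu hv
  | zero =>
    have := h1 0 0 AS.zero AS.zero
    rwa [mx_zero_left] at this
  | add x y _ _ hx hy => exact h2 x y hx hy

lemma AM.ratSub : RatSub W.K (AM W P e' e) where
  zero := AddSubmonoid.zero_mem _
  add hx hy := AddSubmonoid.add_mem _ hx hy
  smul q x hx := by
    refine AM.ind (p := fun x => AM W P e' e ((q : W.K) • x)) ?_ ?_ hx
    · intro u v hu hv
      rw [← mx_smul_left]
      exact AM.of (hu.smul q) hv
    · intro x y hx hy
      rw [smul_add]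
      exact AddSubmonoid.add_mem _ hx hy

lemma AM.AS {z : W.H (nest ops n P).X} (hz : AM W P e' e z) : AS W _ z := by
  refine AM.ind (p := fun z => W552.AS W _ z) ?_ (fun x y hx hy => hx.add hy) hz
  intro u v hu hv
  exact (hu.map _).mul (hv.map _)

variable {f : ∀ a, Module.End W.K (W.H (P a).X)}
  {g : Module.End W.K (W.H (nest ops n P).X)} {g' : Module.End W.K (W.H (part ops P e').X)}
  {g'' : Module.End W.K (W.H (part ops P e).X)}

/-- The multiplicativity of the form. -/
def BfMx (W : WeilCohomology.{u, v} ops) (P : Fin (n + 1) → Polarized 𝒱)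
    (e' : Fin (m' + 1) → Fin (n + 1)) (e : Fin (m + 1) → Fin (n + 1))
    (g : Module.End W.K (W.H (nest ops n P).X)) (g' : Module.End W.K (W.H (part ops P e').X))
    (g'' : Module.End W.K (W.H (part ops P e).X)) : Prop :=
  ∀ u u' v v', bf W (nest ops n P).X (nest ops n P).D g (mx W P e' e u v) (mx W P e' e u' v') =
      bf W (part ops P e').X (part ops P e').D g' u u' *
        bf W (part ops P e).X (part ops P e).D g'' v v'

/-- **Positivity on the rational combinations of products.** -/
theorem AM_pos (hB : BfMx W P e' e g g' g'')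
    (G' : Fr W (part ops P e').X (part ops P e').D g')
    (S' : Sy W (part ops P e').X (part ops P e').D g')
    (h' : PosOn W (part ops P e').X (part ops P e').D g')
    (h'' : PosOn W (part ops P e).X (part ops P e).D g'') {z : W.H (nest ops n P).X}
    (hz : AM W P e' e z) (hz0 : z ≠ 0) :
    ∃ r : ℚ, 0 < r ∧ bf W (nest ops n P).X (nest ops n P).D g z z = r := by
  obtain ⟨N, ε, w, hε, hw, horth, hspan⟩ := h'.basis G' S'
  have key : ∃ v : Fin N → W.H (part ops P e).X, (∀ i, W552.AS W _ (v i)) ∧
      z = ∑ i, mx W P e' e (ε i) (v i) := by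
    clear hz0
    refine AM.ind (p := fun z => ∃ v : Fin N → W.H (part ops P e).X, (∀ i, W552.AS W _ (v i)) ∧
      z = ∑ i, mx W P e' e (ε i) (v i)) ?_ ?_ hz
    · intro u v hu hv
      obtain ⟨r, hr⟩ := hspan u hu
      refine ⟨fun i => (r i : W.K) • v, fun i => hv.smul _, ?_⟩
      have h1 : mx W P e' e u v = ∑ i, mx W P e' e ((r i : W.K) • ε i) v := by
        rw [hr, mx, map_sum, Finset.sum_mul]
        rfl
      rw [h1]
      refine Finset.sum_congr rfl fun i _ => ?_
      rw [mx_smul_left, mx_smul_right]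
    · rintro x y ⟨v, hv, rfl⟩ ⟨v', hv', rfl⟩
      refine ⟨fun i => v i + v' i, fun i => (hv i).add (hv' i), ?_⟩
      rw [← Finset.sum_add_distrib]
      exact Finset.sum_congr rfl fun i _ => (mx_add_right _ _ _).symm
  obtain ⟨v, hv, rfl⟩ := key
  have hbf : bf W (nest ops n P).X (nest ops n P).D g (∑ i, mx W P e' e (ε i) (v i))
      (∑ i, mx W P e' e (ε i) (v i)) =
      ∑ i, (w i : W.K) * bf W (part ops P e).X (part ops P e).D g'' (v i) (v i) := by
    rw [map_sum (bf W (nest ops n P).X (nest ops n P).D g), LinearMap.sum_apply]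
    refine Finset.sum_congr rfl fun i _ => ?_
    rw [map_sum, Finset.sum_eq_single i]
    · rw [hB, horth, if_pos rfl]
    · intro j _ hj
      rw [hB, horth, if_neg (Ne.symm hj), zero_mul]
    · intro h0; exact absurd (Finset.mem_univ _) h0
  choose s hs hs' using fun i => h''.nonneg (hv i)
  have hex : ∃ i, v i ≠ 0 := by
    by_contra hcon
    push Not at hcon
    apply hz0
    refine Finset.sum_eq_zero fun i _ => ?_
    rw [hcon, mx_zero_right]
  obtain ⟨i, hi⟩ := hex
  refine ⟨∑ i, w i * s i, ?_, ?_⟩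
  · refine Finset.sum_pos' (fun i _ => mul_nonneg (hw i).le (hs i))
      ⟨i, Finset.mem_univ _, mul_pos (hw i) ?_⟩
    obtain ⟨r, hr, hr'⟩ := h'' (v i) (hv i) hi
    have : s i = r := by
      have h1 := (hs' i).symm.trans hr'
      exact_mod_cast h1
    rw [this]
    exact hr
  · rw [hbf, Rat.cast_sum]
    refine Finset.sum_congr rfl fun i _ => ?_
    rw [hs', Rat.cast_mul]

/-- Algebraic classes in the span of the products are rational combinations of products. -/
theorem AM_span (hB : BfMx W P e' e g g' g'')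
    (G : Fr W (nest ops n P).X (nest ops n P).D g) (S : Sy W (nest ops n P).X (nest ops n P).D g)
    (G' : Fr W (part ops P e').X (part ops P e').D g')
    (S' : Sy W (part ops P e').X (part ops P e').D g')
    (h' : PosOn W (part ops P e').X (part ops P e').D g')
    (h'' : PosOn W (part ops P e).X (part ops P e).D g'') {x : W.H (nest ops n P).X}
    (hx : W552.AS W _ x) (hxs : x ∈ Submodule.span W.K {z | AM W P e' e z}) (hx0 : x ≠ 0) :
    ∃ r : ℚ, 0 < r ∧ bf W (nest ops n P).X (nest ops n P).D g x x = r := by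
  obtain ⟨N, ε, w, hε, -, -, hspan⟩ := exists_ratBasis (AM.ratSub (W := W) (P := P) (e' := e')
    (e := e)) (bf W (nest ops n P).X (nest ops n P).D g)
    (fun x y hx hy => G.bf_rat hx.AS hy.AS) (fun x y hx hy => bf_symm_AS S hy.AS)
    (fun x hx hx0 => AM_pos hB G' S' h' h'' hx hx0)
  obtain ⟨r, hr⟩ := hspan x hxs fun i => G.bf_rat hx (hε i).AS
  refine AM_pos hB G' S' h' h'' ?_ hx0
  rw [hr]
  exact AM.ratSub.sum _ fun i _ => AM.ratSub.smul _ (hε i)

end Parts

section Kill

/-- The class is annihilated by the product of the operators `1 - T`. -/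
def Kill (W : WeilCohomology.{u, v} ops) (X : 𝒱.Obj) :
    List (Module.End W.K (W.H X)) → W.H X → Prop
  | [], x => x = 0
  | T :: l, x => Kill W X l (x - T x)

lemma Kill.zero : ∀ l : List (Module.End W.K (W.H X)), Kill W X l 0
  | [] => rfl
  | T :: l => by
    change Kill W X l (0 - T 0)
    rw [map_zero, sub_zero]
    exact Kill.zero l

lemma Kill.add : ∀ (l : List (Module.End W.K (W.H X))) {x y : W.H X}, Kill W X l x →
    Kill W X l y → Kill W X l (x + y)
  | [], x, y, hx, hy => by
    change x + y = 0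
    rw [show x = 0 from hx, show y = 0 from hy, add_zero]
  | T :: l, x, y, hx, hy => by
    change Kill W X l (x + y - T (x + y))
    have h1 : x + y - T (x + y) = (x - T x) + (y - T y) := by rw [map_add]; abel
    rw [h1]
    exact Kill.add l hx hy

lemma Kill.smul : ∀ (l : List (Module.End W.K (W.H X))) (c : W.K) {x : W.H X}, Kill W X l x →
    Kill W X l (c • x)
  | [], c, x, hx => by
    change c • x = 0
    rw [show x = 0 from hx, smul_zero]
  | T :: l, c, x, hx => by
    change Kill W X l (c • x - T (c • x))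
    rw [map_smul, ← smul_sub]
    exact Kill.smul l c hx

/-- A class on which all operators act as `0` or `1`, and one of them as `1`. -/
lemma Kill.of_mem : ∀ (l : List (Module.End W.K (W.H X))) {x : W.H X},
    (∀ T ∈ l, T x = x ∨ T x = 0) → (∃ T ∈ l, T x = x) → Kill W X l x
  | [], x, _, h => by
    obtain ⟨T, hT, _⟩ := h
    exact absurd hT List.not_mem_nil
  | T :: l, x, h1, h2 => by
    change Kill W X l (x - T x)
    rcases h1 T List.mem_cons_self with h3 | h3
    · rw [h3, sub_self]
      exact Kill.zero l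
    · rw [h3, sub_zero]
      by_cases hx0 : x = 0
      · rw [hx0]
        exact Kill.zero l
      refine Kill.of_mem l (fun T' hT' => h1 T' (List.mem_cons_of_mem _ hT')) ?_
      obtain ⟨T', hT', h4⟩ := h2
      rcases List.mem_cons.1 hT' with rfl | h5
      · exact absurd (h4.symm.trans h3) hx0
      · exact ⟨T', h5, h4⟩

/-- The properties of the operators. -/
structure Good (W : WeilCohomology.{u, v} ops) (X : 𝒱.Obj) (D : X.Cycles)
    (g T : Module.End W.K (W.H X)) : Prop where
  as : ∀ x, AS W X x → AS W X (T x)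
  adj : ∀ x y, bf W X D g (T x) y = bf W X D g x (T y)
  idem : ∀ x, T (T x) = T x
  pos : ∀ x, AS W X x → T x = x → x ≠ 0 → ∃ r : ℚ, 0 < r ∧ bf W X D g x x = r

/-- **Positivity by orthogonal decomposition.** -/
theorem pos_of_kill : ∀ (l : List (Module.End W.K (W.H X))), (∀ T ∈ l, Good W X D g T) →
    ∀ x, AS W X x → Kill W X l x → x ≠ 0 → ∃ r : ℚ, 0 < r ∧ bf W X D g x x = r
  | [], _, x, _, hk, hx0 => absurd hk hx0
  | T :: l, hl, x, hx, hk, hx0 => by
    have hT := hl T List.mem_cons_self
    have hTx := hT.as x hx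
    have hy : AS W X (x - T x) := AS.ratSub.sub hx hTx
    have ih := pos_of_kill l (fun T' hT' => hl T' (List.mem_cons_of_mem _ hT')) (x - T x) hy hk
    have h1 : bf W X D g (T x) (x - T x) = 0 := by
      rw [hT.adj, map_sub, hT.idem, sub_self, map_zero]
    have h2 : bf W X D g (x - T x) (T x) = 0 := by
      rw [← hT.adj, map_sub, hT.idem, sub_self, map_zero, LinearMap.zero_apply]
    have h3 : bf W X D g x x = bf W X D g (T x) (T x) + bf W X D g (x - T x) (x - T x) := by
      have h4 : x = T x + (x - T x) := by abel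
      conv_lhs => rw [h4]
      rw [map_add, map_add, LinearMap.add_apply, LinearMap.add_apply, h1, h2, add_zero, zero_add]
    by_cases hTx0 : T x = 0
    · have hy0 : x - T x ≠ 0 := by rwa [hTx0, sub_zero]
      obtain ⟨r, hr, hr'⟩ := ih hy0
      exact ⟨r, hr, by rw [h3, hr', hTx0]; simp⟩
    · obtain ⟨s, hs, hs'⟩ := hT.pos (T x) hTx (hT.idem x) hTx0
      by_cases hy0 : x - T x = 0
      · exact ⟨s, hs, by rw [h3, hs', hy0]; simp⟩
      · obtain ⟨r, hr, hr'⟩ := ih hy0
        exact ⟨s + r, by linarith, by rw [h3, hs', hr', Rat.cast_add]⟩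

end Kill

end Pool.Agent.Q56.FH
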