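import Pool.Agent.Q56.FH.Pos

/-!
# The projectors to the Tate classes of a part
-/

set_option autoImplicit false
set_option linter.unusedSectionVars false

open CategoryTheory AlgebraicGeometry

universe u v w

namespace Pool.Agent.Q56.FH

open Pool.Agent.H914 Pool.Agent.H914.VarClass Pool.Agent.H914.VarClass.Obj
  Pool.Agent.H914.WeilCohomology Pool.Agent.H281R3.HT Pool.Agent.W552
  Pool.Agent.Q56.FD Pool.Agent.Q56.FE Pool.Agent.Q56.FR

open Polynomial (aeval)

section Poly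

/-- A polynomial with rational coefficients which separates the powers of `q` from finitely many
other numbers. -/
lemma exists_sel (B : Finset Qb) (q J : ℕ) : ∃ P : Polynomial ℚ, ∀ β ∈ B,
    ((∃ j ≤ J, β = (q : Qb) ^ j) → aeval β P = 1) ∧
      ((∀ j ≤ J, β ≠ (q : Qb) ^ j) → aeval β P = 0) := by
  classical
  let G : Polynomial ℚ := ∏ j ∈ Finset.range (J + 1), (Polynomial.X - Polynomial.C ((q : ℚ) ^ j))
  have hG : ∀ β : Qb, aeval β G = 0 ↔ ∃ j ≤ J, β = (q : Qb) ^ j := by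
    intro β
    rw [map_prod, Finset.prod_eq_zero_iff]
    constructor
    · rintro ⟨j, hj, h⟩
      refine ⟨j, Nat.lt_succ_iff.1 (Finset.mem_range.1 hj), ?_⟩
      rw [map_sub, Polynomial.aeval_X, Polynomial.aeval_C, map_pow, map_natCast, sub_eq_zero] at h
      exact h
    · rintro ⟨j, hj, h⟩
      refine ⟨j, Finset.mem_range.2 (Nat.lt_succ_of_le hj), ?_⟩
      rw [map_sub, Polynomial.aeval_X, Polynomial.aeval_C, map_pow, map_natCast, sub_eq_zero]
      exact h
  let R : Polynomial ℚ := ∏ β ∈ B.filter (fun β => aeval β G ≠ 0), minpoly ℚ β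
  have hint : ∀ β : Qb, IsIntegral ℚ β := fun β => (Algebra.IsAlgebraic.isAlgebraic β).isIntegral
  have hcop : IsCoprime R G := by
    refine IsCoprime.prod_left fun β hβ => ?_
    have h1 := minpoly.irreducible (hint β)
    refine (Irreducible.coprime_iff_not_dvd h1).2 fun h2 => ?_
    apply (Finset.mem_filter.1 hβ).2
    obtain ⟨S, hS⟩ := h2
    rw [hS, map_mul, minpoly.aeval, zero_mul]
  obtain ⟨u, v, huv⟩ := hcop
  refine ⟨u * R, fun β hβ => ⟨fun h => ?_, fun h => ?_⟩⟩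
  · have h1 := congrArg (fun P => aeval β P) huv
    simp only [map_add, map_mul, map_one, (hG β).2 h, mul_zero, add_zero] at h1
    rw [map_mul]
    exact h1
  · have h1 : aeval β G ≠ 0 := fun h0 => by
      obtain ⟨j, hj, h2⟩ := (hG β).1 h0
      exact h j hj h2
    have h2 : aeval β R = 0 := by
      rw [map_prod]
      exact Finset.prod_eq_zero (Finset.mem_filter.2 ⟨hβ, h1⟩) (minpoly.aeval ℚ β)
    rw [map_mul, h2, mul_zero]

variable {p : ℕ} [Fact p.Prime] {a : ℕ} {Q : ℕ → Polynomial ℤ} {M : ℕ}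

lemma finite_letter (hQ : ∀ i ≤ M, IsFrobPoly p (p ^ a) i (Q i)) : Finite (Letter Q M) := by
  classical
  refine Set.Finite.subset (s := (((Finset.range (M + 1)).biUnion fun i =>
      ((Q i).rootSet Qb).toFinset.image fun β => (i, β) : Finset (ℕ × Qb)) : Set (ℕ × Qb)))
      (Finset.finite_toSet _) ?_
  rintro ⟨i, β⟩ ⟨hi, hβ⟩
  rw [Finset.mem_coe, Finset.mem_biUnion]
  refine ⟨i, Finset.mem_range.2 (Nat.lt_succ_of_le hi), Finset.mem_image.2 ⟨β, ?_, rfl⟩⟩
  rw [Set.mem_toFinset, Polynomial.mem_rootSet]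
  exact ⟨(hQ i hi).monic.ne_zero, hβ⟩

end Poly

variable {k : Type u} [Field k] {𝒱 : VarClass k} {ops : CycleOps 𝒱}
  {W : WeilCohomology.{u, v} ops} {p : ℕ} [Fact p.Prime] {a : ℕ}
  {F : FrobeniusOver W (p ^ a)} {Q : ℕ → Polynomial ℤ} {M : ℕ} {τ : Qb →+* W.K} {n : ℕ}
  {P : Fin (n + 1) → Polarized 𝒱}

/-- A family of homogeneous eigenvectors with the given labels. -/
def IsW (F : FrobeniusOver W (p ^ a)) (τ : Qb →+* W.K) {n : ℕ} (P : Fin (n + 1) → Polarized 𝒱)
    (lab : Fin (n + 1) → Letter Q M) (x : ∀ i, W.H (P i).X) : Prop :=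
  ∀ i, x i ∈ W.gr (P i).X (lab i).1.1 ∧ W.map (F.Fr (P i).X) (x i) = τ (lab i).1.2 • x i

/-- The set of words. -/
def Words (F : FrobeniusOver W (p ^ a)) (Q : ℕ → Polynomial ℤ) (M : ℕ) (τ : Qb →+* W.K)
    {n : ℕ} (P : Fin (n + 1) → Polarized 𝒱) : Set (W.H (nest ops n P).X) :=
  {z | ∃ (lab : Fin (n + 1) → Letter Q M) (x : ∀ i, W.H (P i).X), IsW F τ P lab x ∧
    nw W P x = z}

lemma words_span (hP : ∀ i, EigSpan F Q M τ (P i).X) (y : W.H (nest ops n P).X) :
    y ∈ Submodule.span W.K (Words F Q M τ P) := by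
  refine Submodule.span_mono ?_ (nest_span (W := W) (P := P) (S := fun i =>
    {x | ∃ lab : Letter Q M, x ∈ W.gr (P i).X lab.1.1 ∧
      W.map (F.Fr (P i).X) x = τ lab.1.2 • x}) hP y)
  rintro z ⟨x, hx, rfl⟩
  choose lab hlab using hx
  exact ⟨lab, x, hlab, rfl⟩

/-- The product of the labels over a set is a power of `q`. -/
def ExOn (q : ℕ) (lab : Fin (n + 1) → Letter Q M) (S : Finset (Fin (n + 1))) : Prop :=
  Exact q (S.val.map lab)

lemma pr_eq (lab : Fin (n + 1) → Letter Q M) (S : Finset (Fin (n + 1))) :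
    pr (S.val.map lab) = ∏ i ∈ S, (lab i).1.2 := by
  rw [pr, Multiset.map_map]
  rfl

lemma dg_eq (lab : Fin (n + 1) → Letter Q M) (S : Finset (Fin (n + 1))) :
    dg (S.val.map lab) = ∑ i ∈ S, (lab i).1.1 := by
  rw [dg, Multiset.map_map]
  rfl

/-- The weights. -/
lemma exact_of_pr (ha : 0 < a) (hQ : ∀ i ≤ M, IsFrobPoly p (p ^ a) i (Q i))
    {s : Multiset (Letter Q M)} {j : ℕ} (h : pr s = ((p ^ a : ℕ) : Qb) ^ j) : dg s = 2 * j :=
  (Bal.sum_zero ha hQ one_pos (j := j) (by rw [pow_one, pow_one]; exact h)).1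

lemma exOn_iff (ha : 0 < a) (hQ : ∀ i ≤ M, IsFrobPoly p (p ^ a) i (Q i))
    (lab : Fin (n + 1) → Letter Q M) (S : Finset (Fin (n + 1))) :
    ExOn (p ^ a) lab S ↔ ∃ j ≤ M * (n + 1), ∏ i ∈ S, (lab i).1.2 = ((p ^ a : ℕ) : Qb) ^ j := by
  rw [ExOn, Exact, pr_eq]
  constructor
  · rintro ⟨j, hj, hd⟩
    refine ⟨j, ?_, hj⟩
    rw [dg_eq] at hd
    have h1 : ∑ i ∈ S, (lab i).1.1 ≤ ∑ i ∈ S, M := Finset.sum_le_sum fun i _ => (lab i).2.1
    have h2 : ∑ i ∈ S, M ≤ M * (n + 1) := by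
      rw [Finset.sum_const, smul_eq_mul, mul_comm]
      refine Nat.mul_le_mul_left _ ?_
      have := S.card_le_univ
      rwa [Fintype.card_fin] at this
    omega
  · rintro ⟨j, _, hj⟩
    refine ⟨j, hj, ?_⟩
    rw [← pr_eq] at hj
    exact exact_of_pr ha hQ hj

open Classical in
/-- The partial Frobenius endomorphism. -/
noncomputable def pf (F : FrobeniusOver W (p ^ a)) (P : Fin (n + 1) → Polarized 𝒱)
    (S : Finset (Fin (n + 1))) : (nest ops n P).X ⟶ (nest ops n P).X :=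
  tup P fun i => if i ∈ S then prj ops n P i ≫ F.Fr (P i).X else prj ops n P i

lemma map_pf {lab : Fin (n + 1) → Letter Q M} {x : ∀ i, W.H (P i).X} (hx : IsW F τ P lab x)
    (S : Finset (Fin (n + 1))) :
    W.map (pf F P S) (nw W P x) = τ (∏ i ∈ S, (lab i).1.2) • nw W P x := by
  classical
  rw [pf, map_tup]
  have h1 : wd W (fun i => if i ∈ S then prj ops n P i ≫ F.Fr (P i).X else prj ops n P i)
      (List.finRange (n + 1)) x = wd W (prj ops n P) (List.finRange (n + 1))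
        (fun i => (if i ∈ S then τ (lab i).1.2 else 1) • x i) := by
    rw [wd, wd]
    congr 1
    refine List.map_congr_left fun i _ => ?_
    by_cases hi : i ∈ S
    · rw [if_pos hi, if_pos hi, W.map_comp, (hx i).2]
    · rw [if_neg hi, if_neg hi, one_smul]
  rw [h1, wd_scale, ← Fin.prod_univ_def, nw, map_prod]
  congr 1
  rw [Finset.prod_ite_mem, Finset.univ_inter]

/-- The operator. -/
noncomputable def TS (F : FrobeniusOver W (p ^ a)) (P : Fin (n + 1) → Polarized 𝒱)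
    (S : Finset (Fin (n + 1))) (R : Polynomial ℚ) : Module.End W.K (W.H (nest ops n P).X) :=
  aeval (W.map (pf F P S)).toLinearMap (R.map (algebraMap ℚ W.K))

lemma pow_AS (φ : (nest ops n P).X ⟶ (nest ops n P).X) {x : W.H (nest ops n P).X}
    (hx : AS W _ x) (i : ℕ) : AS W _ (((W.map φ).toLinearMap ^ i) x) := by
  induction i with
  | zero => exact hx
  | succ i ih =>
    rw [pow_succ', Module.End.mul_apply]
    exact ih.map _

lemma TS_AS (S : Finset (Fin (n + 1))) (R : Polynomial ℚ) {x : W.H (nest ops n P).X}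
    (hx : AS W _ x) : AS W _ (TS F P S R x) := by
  rw [TS, Polynomial.aeval_eq_sum_range, LinearMap.sum_apply]
  refine AS.ratSub.sum _ fun i _ => ?_
  rw [LinearMap.smul_apply, Polynomial.coeff_map, eq_ratCast]
  exact AS.smul _ (pow_AS _ hx i)

lemma TS_nw {lab : Fin (n + 1) → Letter Q M} {x : ∀ i, W.H (P i).X} (hx : IsW F τ P lab x)
    (S : Finset (Fin (n + 1))) (R : Polynomial ℚ) :
    TS F P S R (nw W P x) = τ (aeval (∏ i ∈ S, (lab i).1.2) R) • nw W P x := by
  rw [TS, aeval_eig (G := (W.map (pf F P S)).toLinearMap) (map_pf hx S)]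
  congr 1
  rw [Polynomial.eval_map, Polynomial.aeval_def, Polynomial.hom_eval₂]
  congr 1
  exact Subsingleton.elim _ _

/-- The polynomial is adapted to the set. -/
def Sel (Q : ℕ → Polynomial ℤ) (M q : ℕ) (S : Finset (Fin (n + 1))) (R : Polynomial ℚ) : Prop :=
  ∀ lab : Fin (n + 1) → Letter Q M, (ExOn q lab S → aeval (∏ i ∈ S, (lab i).1.2) R = 1) ∧
    (¬ ExOn q lab S → aeval (∏ i ∈ S, (lab i).1.2) R = 0)

lemma exists_Sel (ha : 0 < a) (hQ : ∀ i ≤ M, IsFrobPoly p (p ^ a) i (Q i))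
    (S : Finset (Fin (n + 1))) : ∃ R, Sel Q M (p ^ a) S R := by
  classical
  have hfin := finite_letter hQ
  have : Fintype (Letter Q M) := Fintype.ofFinite _
  obtain ⟨R, hR⟩ := exists_sel ((Finset.univ : Finset (Fin (n + 1) → Letter Q M)).image
    fun lab => ∏ i ∈ S, (lab i).1.2) (p ^ a) (M * (n + 1))
  refine ⟨R, fun lab => ?_⟩
  obtain ⟨h1, h2⟩ := hR (∏ i ∈ S, (lab i).1.2)
    (Finset.mem_image.2 ⟨lab, Finset.mem_univ _, rfl⟩)
  refine ⟨fun h => h1 ((exOn_iff ha hQ lab S).1 h), fun h => h2 fun j hj hcon => ?_⟩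
  exact h ((exOn_iff ha hQ lab S).2 ⟨j, hj, hcon⟩)

lemma TS_word {S : Finset (Fin (n + 1))} {R : Polynomial ℚ} (hR : Sel Q M (p ^ a) S R)
    {lab : Fin (n + 1) → Letter Q M} {x : ∀ i, W.H (P i).X} (hx : IsW F τ P lab x) :
    (ExOn (p ^ a) lab S → TS F P S R (nw W P x) = nw W P x) ∧
      (¬ ExOn (p ^ a) lab S → TS F P S R (nw W P x) = 0) := by
  rw [TS_nw hx]
  refine ⟨fun h => ?_, fun h => ?_⟩
  · rw [(hR lab).1 h, map_one, one_smul]
  · rw [(hR lab).2 h, map_zero, zero_smul]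

variable {f : ∀ i, Module.End W.K (W.H (P i).X)}
  {g : Module.End W.K (W.H (nest ops n P).X)}

/-- The operator is idempotent. -/
lemma TS_idem (hP : ∀ i, EigSpan F Q M τ (P i).X) {S : Finset (Fin (n + 1))} {R : Polynomial ℚ}
    (hR : Sel Q M (p ^ a) S R) (x : W.H (nest ops n P).X) :
    TS F P S R (TS F P S R x) = TS F P S R x := by
  have h := words_span hP x
  induction h using Submodule.span_induction with
  | mem z hz =>
    obtain ⟨lab, x, hx, rfl⟩ := hz
    by_cases hS : ExOn (p ^ a) lab S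
    · rw [(TS_word hR hx).1 hS, (TS_word hR hx).1 hS]
    · rw [(TS_word hR hx).2 hS, map_zero]
  | zero => rw [map_zero, map_zero]
  | add x y _ _ hx hy => rw [map_add, map_add, hx, hy]
  | smul c x _ hx => rw [map_smul, map_smul, hx]

/-- Words which are not orthogonal are simultaneously exact. -/
lemma exOn_of_bf (hF : ∀ i, Fr W (P i).X (P i).D (f i))
    (hL : ∀ i, LefStr (W.isInternal (P i).X) (P i).X.dim
      (LinearMap.mulLeft W.K (W.cl (P i).X (P i).D)) (f i))
    {lab lab' : Fin (n + 1) → Letter Q M} {x y : ∀ i, W.H (P i).X} (hx : IsW F τ P lab x)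
    (hy : IsW F τ P lab' y) (h0 : ∏ i, bf W (P i).X (P i).D (f i) (x i) (y i) ≠ 0)
    {S : Finset (Fin (n + 1))} (h : ExOn (p ^ a) lab S) : ExOn (p ^ a) lab' S := by
  have hq : p ^ a ≠ 0 := (pow_pos (Fact.out : p.Prime).pos a).ne'
  have h1 : ∀ i, (lab i).1.1 = (lab' i).1.1 ∧
      (lab i).1.2 * (lab' i).1.2 = ((p ^ a : ℕ) : Qb) ^ (lab i).1.1 := by
    intro i
    obtain ⟨h2, h3⟩ := eig_of_bf F hq (hF i) (hL i) (hx i).1 (hy i).1 (hx i).2 (hy i).2
      (fun h4 => h0 (Finset.prod_eq_zero (Finset.mem_univ i) h4))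
    refine ⟨h2, τ.injective ?_⟩
    rw [map_mul, h3, map_pow, map_natCast]
  obtain ⟨j, hj, hd⟩ := h
  have hq0 : ((p ^ a : ℕ) : Qb) ≠ 0 := by exact_mod_cast hq
  refine ⟨j, ?_, ?_⟩
  · rw [pr_eq] at hj ⊢
    apply mul_left_cancel₀ (pow_ne_zero j hq0)
    rw [← hj, ← Finset.prod_mul_distrib, Finset.prod_congr rfl fun i _ => (h1 i).2,
      Finset.prod_pow_eq_pow_sum, ← dg_eq, hd, hj, ← pow_add]
    congr 1
    omega
  · rw [dg_eq] at hd ⊢
    rw [← hd]
    exact Finset.sum_congr rfl fun i _ => (h1 i).1.symm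

/-- The operator is self-adjoint. -/
lemma TS_adj (hP : ∀ i, EigSpan F Q M τ (P i).X)
    (hF : ∀ i, Fr W (P i).X (P i).D (f i))
    (hS : ∀ i, Sy W (P i).X (P i).D (f i))
    (hL : ∀ i, LefStr (W.isInternal (P i).X) (P i).X.dim
      (LinearMap.mulLeft W.K (W.cl (P i).X (P i).D)) (f i))
    (hg : ∀ x y : ∀ i, W.H (P i).X, bf W (nest ops n P).X (nest ops n P).D g (nw W P x)
      (nw W P y) = ∏ i, bf W (P i).X (P i).D (f i) (x i) (y i))
    {S : Finset (Fin (n + 1))} {R : Polynomial ℚ} (hR : Sel Q M (p ^ a) S R)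
    (x y : W.H (nest ops n P).X) :
    bf W (nest ops n P).X (nest ops n P).D g (TS F P S R x) y =
      bf W (nest ops n P).X (nest ops n P).D g x (TS F P S R y) := by
  have h := words_span hP x
  have h' := words_span hP y
  induction h using Submodule.span_induction with
  | zero => rw [map_zero, map_zero, LinearMap.zero_apply, LinearMap.zero_apply]
  | add x y _ _ hx hy => rw [map_add, map_add, LinearMap.add_apply, hx, hy, map_add,
      LinearMap.add_apply]
  | smul c x _ hx => rw [map_smul, map_smul, LinearMap.smul_apply, hx, map_smul,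
      LinearMap.smul_apply]
  | mem z hz =>
  induction h' using Submodule.span_induction with
  | zero => rw [map_zero, map_zero, map_zero]
  | add x y _ _ hx hy => rw [map_add, hx, hy, map_add, map_add]
  | smul c x _ hx => rw [map_smul, hx, map_smul, map_smul]
  | mem z' hz' =>
  obtain ⟨lab, x, hx, rfl⟩ := hz
  obtain ⟨lab', y, hy, rfl⟩ := hz'
  by_cases h0 : ∏ i, bf W (P i).X (P i).D (f i) (x i) (y i) = 0
  · have h1 := hg x y
    rw [h0] at h1
    rw [TS_nw hx, TS_nw hy, map_smul, map_smul, LinearMap.smul_apply, h1, smul_zero, smul_zero]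
  · have h0' : ∏ i, bf W (P i).X (P i).D (f i) (y i) (x i) ≠ 0 := by
      intro h2
      apply h0
      obtain ⟨i, hi, h3⟩ := Finset.prod_eq_zero_iff.1 h2
      refine Finset.prod_eq_zero hi ?_
      rw [hS i, par, scal_apply _ _ (hy i).1, map_smul, LinearMap.smul_apply, h3, smul_zero]
    by_cases hlab : ExOn (p ^ a) lab S
    · have hlab' := exOn_of_bf hF hL hx hy h0 hlab
      rw [(TS_word hR hx).1 hlab, (TS_word hR hy).1 hlab']
    · have hlab' : ¬ ExOn (p ^ a) lab' S := fun h2 =>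
        hlab (exOn_of_bf hF hL hy hx h0' h2)
      rw [(TS_word hR hx).2 hlab, (TS_word hR hy).2 hlab', map_zero, map_zero,
        LinearMap.zero_apply]

end Pool.Agent.Q56.FH
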