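import Pool.Agent.Q56.FH.Words

/-!
# Splitting a product of several varieties into two products
-/

set_option autoImplicit false

open CategoryTheory AlgebraicGeometry

universe u v w

namespace Pool.Agent.Q56.FH

open Pool.Agent.H914 Pool.Agent.H914.VarClass Pool.Agent.H914.VarClass.Obj
  Pool.Agent.H914.WeilCohomology Pool.Agent.H281R3.HT Pool.Agent.W552
  Pool.Agent.Q56.FD Pool.Agent.Q56.FE

variable {k : Type u} [Field k] {𝒱 : VarClass k} {ops : CycleOps 𝒱}
  {W : WeilCohomology.{u, v} ops} {n m m' : ℕ}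

/-- The images of `e'` and `e` form a partition of the index set. -/
def Spl (e' : Fin (m' + 1) → Fin (n + 1)) (e : Fin (m + 1) → Fin (n + 1)) : Prop :=
  (List.finRange (n + 1)).Perm
    ((List.finRange (m' + 1)).map e' ++ (List.finRange (m + 1)).map e)

variable {e' : Fin (m' + 1) → Fin (n + 1)} {e : Fin (m + 1) → Fin (n + 1)}

lemma Spl.nodup (h : Spl e' e) :
    ((List.finRange (m' + 1)).map e' ++ (List.finRange (m + 1)).map e).Nodup :=
  h.nodup_iff.1 (List.nodup_finRange _)

lemma Spl.inj' (h : Spl e' e) : Function.Injective e' := by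
  have h1 := (List.nodup_append.1 h.nodup).1
  intro i j hij
  exact (List.inj_on_of_nodup_map h1) (List.mem_finRange i) (List.mem_finRange j) hij

lemma Spl.inj (h : Spl e' e) : Function.Injective e := by
  have h1 := (List.nodup_append.1 h.nodup).2.1
  intro i j hij
  exact (List.inj_on_of_nodup_map h1) (List.mem_finRange i) (List.mem_finRange j) hij

lemma Spl.disj (h : Spl e' e) (i : Fin (m' + 1)) (j : Fin (m + 1)) : e' i ≠ e j := by
  have h1 := (List.nodup_append.1 h.nodup).2.2
  exact h1 _ (List.mem_map.2 ⟨i, List.mem_finRange i, rfl⟩) _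
    (List.mem_map.2 ⟨j, List.mem_finRange j, rfl⟩)

lemma Spl.cover (h : Spl e' e) (a : Fin (n + 1)) : (∃ i, e' i = a) ∨ ∃ j, e j = a := by
  have h1 : a ∈ (List.finRange (m' + 1)).map e' ++ (List.finRange (m + 1)).map e :=
    h.mem_iff.1 (List.mem_finRange a)
  rcases List.mem_append.1 h1 with h2 | h2
  · obtain ⟨i, _, hi⟩ := List.mem_map.1 h2
    exact Or.inl ⟨i, hi⟩
  · obtain ⟨i, _, hi⟩ := List.mem_map.1 h2
    exact Or.inr ⟨i, hi⟩

lemma Spl.prod (h : Spl e' e) {K : Type*} [CommMonoid K] (g : Fin (n + 1) → K) :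
    ∏ a, g a = (∏ i, g (e' i)) * ∏ i, g (e i) := by
  rw [Fin.prod_univ_def, Fin.prod_univ_def, Fin.prod_univ_def, (h.map g).prod_eq,
    List.map_append, List.prod_append, List.map_map, List.map_map]
  rfl

/-- Families on the two parts can be glued. -/
lemma Spl.glue (h : Spl e' e) {β : Fin (n + 1) → Type v} (x₁ : ∀ i, β (e' i))
    (x₂ : ∀ i, β (e i)) : ∃ x : ∀ a, β a, (∀ i, x (e' i) = x₁ i) ∧ ∀ i, x (e i) = x₂ i := by
  have key : ∀ a, ∃ z : β a, (∀ i (hi : e' i = a), z = hi ▸ x₁ i) ∧
      ∀ i (hi : e i = a), z = hi ▸ x₂ i := by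
    intro a
    rcases h.cover a with ⟨i, rfl⟩ | ⟨i, rfl⟩
    · refine ⟨x₁ i, fun j hj => ?_, fun j hj => absurd hj.symm (h.disj i j)⟩
      obtain rfl := h.inj' hj
      rfl
    · refine ⟨x₂ i, fun j hj => absurd hj (h.disj j i), fun j hj => ?_⟩
      obtain rfl := h.inj hj
      rfl
  choose x hx using key
  exact ⟨x, fun i => (hx (e' i)).1 i rfl, fun i => (hx (e i)).2 i rfl⟩

variable {P : Fin (n + 1) → Polarized 𝒱}

/-- The product on the two parts. -/
noncomputable abbrev part (ops : CycleOps 𝒱) (P : Fin (n + 1) → Polarized 𝒱)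
    (e : Fin (m + 1) → Fin (n + 1)) : Polarized 𝒱 := nest ops m fun i => P (e i)

/-- The projection to a part. -/
noncomputable def pp (ops : CycleOps 𝒱) (P : Fin (n + 1) → Polarized 𝒱)
    (e : Fin (m + 1) → Fin (n + 1)) : (nest ops n P).X ⟶ (part ops P e).X :=
  tup (fun i => P (e i)) fun i => prj ops n P (e i)

lemma map_pp (e : Fin (m + 1) → Fin (n + 1)) (x : ∀ a, W.H (P a).X) :
    W.map (pp ops P e) (nw W (fun i => P (e i)) fun i => x (e i)) =
      wd W (prj ops n P) ((List.finRange (m + 1)).map e) x := by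
  rw [pp, map_tup, wd_map]

/-- The product of classes on the two parts. -/
noncomputable def mx (W : WeilCohomology.{u, v} ops) (P : Fin (n + 1) → Polarized 𝒱)
    (e' : Fin (m' + 1) → Fin (n + 1)) (e : Fin (m + 1) → Fin (n + 1))
    (u : W.H (part ops P e').X) (v : W.H (part ops P e).X) : W.H (nest ops n P).X :=
  W.map (pp ops P e') u * W.map (pp ops P e) v

lemma mx_add_left (u u' : W.H (part ops P e').X) (v : W.H (part ops P e).X) :
    mx W P e' e (u + u') v = mx W P e' e u v + mx W P e' e u' v := by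
  rw [mx, map_add, add_mul, mx, mx]

lemma mx_add_right (u : W.H (part ops P e').X) (v v' : W.H (part ops P e).X) :
    mx W P e' e u (v + v') = mx W P e' e u v + mx W P e' e u v' := by
  rw [mx, map_add, mul_add, mx, mx]

lemma mx_smul_left (c : W.K) (u : W.H (part ops P e').X) (v : W.H (part ops P e).X) :
    mx W P e' e (c • u) v = c • mx W P e' e u v := by
  rw [mx, map_smul, smul_mul_assoc, mx]

lemma mx_smul_right (c : W.K) (u : W.H (part ops P e').X) (v : W.H (part ops P e).X) :
    mx W P e' e u (c • v) = c • mx W P e' e u v := by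
  rw [mx, map_smul, mul_smul_comm, mx]

lemma mx_zero_left (v : W.H (part ops P e).X) : mx W P e' e 0 v = 0 := by
  rw [mx, map_zero, zero_mul]

lemma mx_zero_right (u : W.H (part ops P e').X) : mx W P e' e u 0 = 0 := by
  rw [mx, map_zero, mul_zero]

/-- A product of pulled back classes is a product of classes on the two parts. -/
lemma nw_eq_mx (h : Spl e' e) (δ : Fin (n + 1) → ℕ) :
    ∃ ε : ℤ, ε * ε = 1 ∧ ∀ x : ∀ a, W.H (P a).X, (∀ a, x a ∈ W.gr (P a).X (δ a)) →
      mx W P e' e (nw W (fun i => P (e' i)) fun i => x (e' i))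
        (nw W (fun i => P (e i)) fun i => x (e i)) = (ε : W.K) • nw W P x := by
  obtain ⟨ε, h1, h2⟩ := wd_perm (W := W) (prj ops n P) (δ := δ) h
  refine ⟨ε, h1, fun x hx => ?_⟩
  rw [mx, map_pp, map_pp, ← wd_append, h2 x hx]
  rfl

/-- The homogeneous classes. -/
def Hom (W : WeilCohomology.{u, v} ops) (X : 𝒱.Obj) : Set (W.H X) := {x | ∃ i, x ∈ W.gr X i}

lemma hom_span (X : 𝒱.Obj) (y : W.H X) : y ∈ Submodule.span W.K (Hom W X) :=
  gr_induction (W.isInternal X) (p := fun y => y ∈ Submodule.span W.K (Hom W X))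
    (fun i _ hx => Submodule.subset_span ⟨i, hx⟩) (fun _ _ ha hb => Submodule.add_mem _ ha hb) y

variable {f : ∀ a, Module.End W.K (W.H (P a).X)}

/-- **The form on products of classes on the two parts.** -/
theorem bf_mx (hF : ∀ a, Fr W (P a).X (P a).D (f a)) (h : Spl e' e)
    {g : Module.End W.K (W.H (nest ops n P).X)} {g' : Module.End W.K (W.H (part ops P e').X)}
    {g'' : Module.End W.K (W.H (part ops P e).X)}
    (hg : ∀ x y : ∀ a, W.H (P a).X, bf W (nest ops n P).X (nest ops n P).D g (nw W P x)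
      (nw W P y) = ∏ a, bf W (P a).X (P a).D (f a) (x a) (y a))
    (hg' : ∀ x y : ∀ i, W.H (P (e' i)).X, bf W (part ops P e').X (part ops P e').D g'
      (nw W _ x) (nw W _ y) = ∏ i, bf W (P (e' i)).X (P (e' i)).D (f (e' i)) (x i) (y i))
    (hg'' : ∀ x y : ∀ i, W.H (P (e i)).X, bf W (part ops P e).X (part ops P e).D g''
      (nw W _ x) (nw W _ y) = ∏ i, bf W (P (e i)).X (P (e i)).D (f (e i)) (x i) (y i))
    (u u' : W.H (part ops P e').X) (v v' : W.H (part ops P e).X) :
    bf W (nest ops n P).X (nest ops n P).D g (mx W P e' e u v) (mx W P e' e u' v') =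
      bf W (part ops P e').X (part ops P e').D g' u u' *
        bf W (part ops P e).X (part ops P e).D g'' v v' := by
  have hs := nest_span (W := W) (ops := ops) (P := fun i => P (e i))
    (S := fun i => Hom W (P (e i)).X) (fun i y => hom_span _ y)
  have hs' := nest_span (W := W) (ops := ops) (P := fun i => P (e' i))
    (S := fun i => Hom W (P (e' i)).X) (fun i y => hom_span _ y)
  have h1 := hs' u
  have h2 := hs' u'
  have h3 := hs v
  have h4 := hs v'
  induction h1 using Submodule.span_induction with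
  | zero => rw [mx_zero_left, map_zero, map_zero, LinearMap.zero_apply, LinearMap.zero_apply,
      zero_mul]
  | add x y _ _ hx hy => rw [mx_add_left, map_add, map_add, LinearMap.add_apply,
      LinearMap.add_apply, add_mul, hx, hy]
  | smul c x _ hx => rw [mx_smul_left, map_smul, map_smul, LinearMap.smul_apply,
      LinearMap.smul_apply, smul_eq_mul, smul_eq_mul, hx, mul_assoc]
  | mem u hu =>
  induction h2 using Submodule.span_induction with
  | zero => rw [mx_zero_left, map_zero, map_zero, zero_mul]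
  | add x y _ _ hx hy => rw [mx_add_left, map_add, map_add, add_mul, hx, hy]
  | smul c x _ hx => rw [mx_smul_left, map_smul, map_smul, smul_eq_mul, smul_eq_mul, hx,
      mul_assoc]
  | mem u' hu' =>
  induction h3 using Submodule.span_induction with
  | zero => rw [mx_zero_right, map_zero, map_zero, LinearMap.zero_apply, LinearMap.zero_apply,
      mul_zero]
  | add x y _ _ hx hy => rw [mx_add_right, map_add, map_add, LinearMap.add_apply,
      LinearMap.add_apply, mul_add, hx, hy]
  | smul c x _ hx =>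
    rw [mx_smul_right, map_smul, map_smul, LinearMap.smul_apply, LinearMap.smul_apply,
      smul_eq_mul, smul_eq_mul, hx]
    ring
  | mem v hv =>
  induction h4 using Submodule.span_induction with
  | zero => rw [mx_zero_right, map_zero, map_zero, mul_zero]
  | add x y _ _ hx hy => rw [mx_add_right, map_add, map_add, mul_add, hx, hy]
  | smul c x _ hx =>
    rw [mx_smul_right, map_smul, map_smul, smul_eq_mul, smul_eq_mul, hx]
    ring
  | mem v' hv' =>
  obtain ⟨x₁, hx₁, rfl⟩ := hu
  obtain ⟨x₁', hx₁', rfl⟩ := hu'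
  obtain ⟨x₂, hx₂, rfl⟩ := hv
  obtain ⟨x₂', hx₂', rfl⟩ := hv'
  obtain ⟨x, hxa, hxb⟩ := h.glue (β := fun a => W.H (P a).X) x₁ x₂
  obtain ⟨y, hya, hyb⟩ := h.glue (β := fun a => W.H (P a).X) x₁' x₂'
  obtain rfl : (fun i => x (e' i)) = x₁ := funext hxa
  obtain rfl : (fun i => x (e i)) = x₂ := funext hxb
  obtain rfl : (fun i => y (e' i)) = x₁' := funext hya
  obtain rfl : (fun i => y (e i)) = x₂' := funext hyb
  have hx : ∀ a, ∃ i, x a ∈ W.gr (P a).X i := by
    intro a
    rcases h.cover a with ⟨i, rfl⟩ | ⟨i, rfl⟩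
    · exact hx₁ i
    · exact hx₂ i
  have hy : ∀ a, ∃ i, y a ∈ W.gr (P a).X i := by
    intro a
    rcases h.cover a with ⟨i, rfl⟩ | ⟨i, rfl⟩
    · exact hx₁' i
    · exact hx₂' i
  choose δ hδ using hx
  choose δ' hδ' using hy
  choose ε hε1 hε2 using fun δ => nw_eq_mx (W := W) (P := P) h δ
  rw [hε2 δ x hδ, hε2 δ' y hδ', map_smul, map_smul, LinearMap.smul_apply, hg, hg', hg'',
    ← h.prod fun a => bf W (P a).X (P a).D (f a) (x a) (y a)]
  by_cases h0 : δ = δ'
  · subst h0
    rw [smul_smul]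
    have h5 : (ε δ : W.K) * (ε δ : W.K) = 1 := by
      have := hε1 δ
      exact_mod_cast congrArg (Int.cast (R := W.K)) this
    rw [h5, one_smul]
  · obtain ⟨a, ha⟩ := Function.ne_iff.1 h0
    rw [Finset.prod_eq_zero (Finset.mem_univ a) ((hF a).bf_deg (hδ a) (hδ' a) ha), smul_zero,
      smul_zero]

end Pool.Agent.Q56.FH
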