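import Pool.Agent.W552.Nest
import Pool.Agent.Q56.FR.Word

/-!
# Products of pulled back classes on products of several varieties
-/

set_option autoImplicit false

open CategoryTheory AlgebraicGeometry

universe u v w

namespace Pool.Agent.Q56.FH

open Pool.Agent.H914 Pool.Agent.H914.VarClass Pool.Agent.H914.VarClass.Obj
  Pool.Agent.H914.WeilCohomology Pool.Agent.H281R3.HT Pool.Agent.W552
  Pool.Agent.Q56.FD Pool.Agent.Q56.FE

variable {k : Type u} [Field k] {𝒱 : VarClass k} {ops : CycleOps 𝒱}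
  {W : WeilCohomology.{u, v} ops}

section Wd

variable {Λ : Type} {X : Λ → 𝒱.Obj} {V V' : 𝒱.Obj}

/-- The product of the pulled back classes, in the order given by the list. -/
noncomputable def wd (W : WeilCohomology.{u, v} ops) {X : Λ → 𝒱.Obj} {V : 𝒱.Obj}
    (π : ∀ a, V ⟶ X a) (l : List Λ) (x : ∀ a, W.H (X a)) : W.H V :=
  (l.map fun a => W.map (π a) (x a)).prod

variable (π : ∀ a, V ⟶ X a)

lemma wd_nil (x : ∀ a, W.H (X a)) : wd W π [] x = 1 := rfl

lemma wd_cons (a : Λ) (l : List Λ) (x : ∀ a, W.H (X a)) :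
    wd W π (a :: l) x = W.map (π a) (x a) * wd W π l x := by
  rw [wd, List.map_cons, List.prod_cons, wd]

lemma wd_append (l l' : List Λ) (x : ∀ a, W.H (X a)) :
    wd W π (l ++ l') x = wd W π l x * wd W π l' x := by
  rw [wd, List.map_append, List.prod_append, wd, wd]

lemma wd_pull (g : V' ⟶ V) (l : List Λ) (x : ∀ a, W.H (X a)) :
    W.map g (wd W π l x) = wd W (fun a => g ≫ π a) l x := by
  induction l with
  | nil => rw [wd_nil, wd_nil, map_one]
  | cons a l ih => rw [wd_cons, wd_cons, map_mul, ih, W.map_comp]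

lemma wd_map {Λ' : Type} (e : Λ' → Λ) (l : List Λ') (x : ∀ a, W.H (X a)) :
    wd W π (l.map e) x = wd W (X := fun i => X (e i)) (fun i => π (e i)) l fun i => x (e i) := by
  rw [wd, wd, List.map_map]
  rfl

lemma wd_congr {π π' : ∀ a, V ⟶ X a} (h : ∀ a, π a = π' a) (l : List Λ) (x : ∀ a, W.H (X a)) :
    wd W π l x = wd W π' l x := by
  have : π = π' := funext h
  rw [this]

lemma wd_mem {δ : Λ → ℕ} {x : ∀ a, W.H (X a)} (hx : ∀ a, x a ∈ W.gr (X a) (δ a)) (l : List Λ) :
    wd W π l x ∈ W.gr V (l.map δ).sum := by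
  induction l with
  | nil => exact W.one_mem V
  | cons a l ih =>
    rw [wd_cons, List.map_cons, List.sum_cons]
    exact W.mul_mem (W.map_mem _ (hx a)) ih

/-- The sign of a permutation of the factors depends only on the degrees. -/
lemma wd_perm {δ : Λ → ℕ} {l l' : List Λ} (h : l.Perm l') :
    ∃ ε : ℤ, ε * ε = 1 ∧ ∀ x : ∀ a, W.H (X a), (∀ a, x a ∈ W.gr (X a) (δ a)) →
      wd W π l' x = (ε : W.K) • wd W π l x := by
  induction h with
  | nil => exact ⟨1, by norm_num, fun x _ => by simp⟩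
  | cons a _ ih =>
    obtain ⟨ε, h1, h2⟩ := ih
    exact ⟨ε, h1, fun x hx => by rw [wd_cons, wd_cons, h2 x hx, mul_smul_comm]⟩
  | swap a b l =>
    refine ⟨(-1) ^ (δ a * δ b), by rw [← mul_pow]; norm_num, fun x hx => ?_⟩
    rw [wd_cons, wd_cons, wd_cons, wd_cons, ← mul_assoc,
      W.comm (W.map_mem _ (hx a)) (W.map_mem _ (hx b)), smul_mul_assoc, mul_assoc]
    push_cast
    rfl
  | trans _ _ ih ih' =>
    obtain ⟨ε, h1, h2⟩ := ih
    obtain ⟨ε', h1', h2'⟩ := ih'
    refine ⟨ε' * ε, ?_, fun x hx => ?_⟩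
    · calc ε' * ε * (ε' * ε) = (ε' * ε') * (ε * ε) := by ring
        _ = 1 := by rw [h1, h1', one_mul]
    · rw [h2' x hx, h2 x hx, smul_smul]
      push_cast
      rfl

/-- Scalars. -/
lemma wd_scale (l : List Λ) (x : ∀ a, W.H (X a)) (c : Λ → W.K) :
    wd W π l (fun a => c a • x a) = (l.map c).prod • wd W π l x := by
  induction l with
  | nil => rw [wd_nil, wd_nil, List.map_nil, List.prod_nil, one_smul]
  | cons a l ih =>
    rw [wd_cons, wd_cons, ih, List.map_cons, List.prod_cons, map_smul, smul_mul_smul_comm]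

end Wd

section Nest

/-- The product of the pulled back classes on the product of the members of a family. -/
noncomputable def nw (W : WeilCohomology.{u, v} ops) {n : ℕ} (P : Fin (n + 1) → Polarized 𝒱)
    (x : ∀ a, W.H (P a).X) : W.H (nest ops n P).X :=
  wd W (prj ops n P) (List.finRange (n + 1)) x

lemma nw_zero (P : Fin 1 → Polarized 𝒱) (x : ∀ a, W.H (P a).X) : nw W P x = x 0 := by
  change ((List.finRange 1).map fun a => W.map (prj ops 0 P a) (x a)).prod = x 0
  have h1 : List.finRange 1 = [0] := rfl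
  rw [h1, List.map_cons, List.map_nil, List.prod_cons, List.prod_nil, mul_one]
  exact W.map_id _ _

lemma nw_succ {n : ℕ} (P : Fin (n + 2) → Polarized 𝒱) (x : ∀ a, W.H (P a).X) :
    nw W P x = H281R3.HT.ext W (x 0) (nw W (fun i => P i.succ) fun i => x i.succ) := by
  have h1 : List.finRange (n + 2) = 0 :: (List.finRange (n + 1)).map Fin.succ :=
    List.finRange_succ
  rw [nw, h1, wd_cons, wd_map, H281R3.HT.ext, nw, wd_pull]
  rfl

/-- induction over the products of pulled back classes -/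
lemma nest_span {n : ℕ} {P : Fin (n + 1) → Polarized 𝒱} {S : ∀ a, Set (W.H (P a).X)}
    (hS : ∀ a, ∀ y : W.H (P a).X, y ∈ Submodule.span W.K (S a)) (y : W.H (nest ops n P).X) :
    y ∈ Submodule.span W.K {z | ∃ x : ∀ a, W.H (P a).X, (∀ a, x a ∈ S a) ∧ nw W P x = z} := by
  induction n with
  | zero =>
    refine Submodule.span_mono ?_ (hS 0 y)
    intro z hz
    refine ⟨fun a => Fin.cases (motive := fun a => W.H (P a).X) z (fun i => i.elim0) a, ?_, ?_⟩
    · intro a
      obtain rfl : a = 0 := Fin.eq_zero a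
      exact hz
    · rw [nw_zero]
      rfl
  | succ n ih =>
    refine FR.kunneth_span (A := (P 0).X) (B := (nest ops n fun i => P i.succ).X)
      (fun x y => ?_) y
    refine FR.span_mul_mul (W.map (fst (P 0).X (nest ops n fun i => P i.succ).X))
      (W.map (snd (P 0).X (nest ops n fun i => P i.succ).X)) ?_ (hS 0 x)
      (ih (P := fun i => P i.succ) (S := fun i => S i.succ) (fun i => hS i.succ) y)
    rintro x hx _ ⟨x', hx', rfl⟩
    refine Submodule.subset_span
      ⟨fun a => Fin.cases (motive := fun a => W.H (P a).X) x x' a, ?_, ?_⟩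
    · intro a
      refine Fin.cases ?_ (fun i => ?_) a
      · exact hx
      · exact hx' i
    · rw [nw_succ]
      rfl

/-- The Frobenius endomorphism. -/
lemma frob_wd {Λ : Type} {X : Λ → 𝒱.Obj} {V : 𝒱.Obj} {q : ℕ} (F : FrobeniusOver W q)
    (π : ∀ a, V ⟶ X a) (l : List Λ) (x : ∀ a, W.H (X a)) :
    W.map (F.Fr V) (wd W π l x) = wd W π l fun a => W.map (F.Fr (X a)) (x a) := by
  induction l with
  | nil => rw [wd_nil, wd_nil, map_one]
  | cons a l ih =>
    rw [wd_cons, wd_cons, map_mul, ih, ← W.map_comp, ← W.map_comp, F.nat]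

/-- The map to a product. -/
noncomputable def tup {V : 𝒱.Obj} : {n : ℕ} → (P : Fin (n + 1) → Polarized 𝒱) →
    (∀ a, V ⟶ (P a).X) → (V ⟶ (nest ops n P).X)
  | 0, _, f => f 0
  | _ + 1, P, f => Obj.lift (f 0) (tup (fun i => P i.succ) fun i => f i.succ)

lemma tup_prj {V : 𝒱.Obj} : ∀ {n : ℕ} (P : Fin (n + 1) → Polarized 𝒱)
    (f : ∀ a, V ⟶ (P a).X) (a : Fin (n + 1)), tup (ops := ops) P f ≫ prj ops n P a = f a
  | 0, P, f, a => by
    obtain rfl : a = 0 := Fin.eq_zero a
    exact Category.comp_id _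
  | n + 1, P, f, a => by
    refine Fin.cases ?_ (fun i => ?_) a
    · exact Obj.lift_fst _ _
    · change Obj.lift (f 0) (tup (fun i => P i.succ) fun i => f i.succ) ≫
        (snd (P 0).X (nest ops n (fun i => P i.succ)).X ≫ prj ops n (fun i => P i.succ) i) = _
      rw [← Category.assoc, Obj.lift_snd, tup_prj]

lemma map_tup {V : 𝒱.Obj} {n : ℕ} (P : Fin (n + 1) → Polarized 𝒱)
    (f : ∀ a, V ⟶ (P a).X) (x : ∀ a, W.H (P a).X) :
    W.map (tup (ops := ops) P f) (nw W P x) = wd W f (List.finRange (n + 1)) x := by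
  rw [nw, wd_pull]
  exact wd_congr (fun a => tup_prj P f a) _ _

end Nest

section Form

/-- The form on products of pulled back classes. -/
theorem exists_form {n : ℕ} (P : Fin (n + 1) → Polarized 𝒱)
    (f : ∀ a, Module.End W.K (W.H (P a).X)) (hF : ∀ a, Fr W (P a).X (P a).D (f a))
    (hS : ∀ a, Sy W (P a).X (P a).D (f a)) :
    ∃ g : Module.End W.K (W.H (nest ops n P).X), Fr W (nest ops n P).X (nest ops n P).D g ∧
      Sy W (nest ops n P).X (nest ops n P).D g ∧ ∀ x y : ∀ a, W.H (P a).X,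
        bf W (nest ops n P).X (nest ops n P).D g (nw W P x) (nw W P y) =
          ∏ a, bf W (P a).X (P a).D (f a) (x a) (y a) := by
  induction n with
  | zero =>
    refine ⟨f 0, hF 0, hS 0, fun x y => ?_⟩
    rw [nw_zero, nw_zero, Fin.prod_univ_one]
    rfl
  | succ n ih =>
    obtain ⟨g, hG, hGS, hB⟩ := ih (fun i => P i.succ) (fun i => f i.succ)
      (fun i => hF i.succ) (fun i => hS i.succ)
    refine ⟨extSum W (f 0) g, (hF 0).prod hG, (hS 0).prod (hF 0) hG hGS, fun x y => ?_⟩
    rw [nw_succ, nw_succ, Fin.prod_univ_succ, ← hB]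
    exact (hF 0).bf_ext hG (x 0) (y 0) _ _

end Form

end Pool.Agent.Q56.FH
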